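import Pool.Agent.Lib.TSYM46.Main

open Set Filter Topology Manifold ContDiff Bundle MeasureTheory

namespace Pool.Agent.TSYM46

noncomputable section

variable {E : Type*} [NormedAddCommGroup E] [NormedSpace ℝ E]
  {M : Type*} [TopologicalSpace M] [ChartedSpace E M] [IsManifold 𝓘(ℝ, E) ∞ M]
  {Φ : ℝ → M → M}

theorem IsCircleAction.periodic (h : IsCircleAction (E := E) Φ) (x : M) :
    Function.Periodic (fun t => Φ t x) 1 := by
  intro t
  simp only
  rw [h.add, h.one]

theorem fixed_of_unit (h : IsCircleAction (E := E) Φ) {x : M}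
    (hx : ∀ t ∈ Icc (0 : ℝ) 1, Φ t x = x) (t : ℝ) : Φ t x = x := by
  have h1 := (h.periodic x).sub_int_mul_eq (x := t) ⌊t⌋
  simp only [mul_one] at h1
  rw [← h1]
  exact hx _ ⟨Int.fract_nonneg t, (Int.fract_lt_one t).le⟩

/-- Fixed points form an open set near the closure of the interior of the fixed point set. -/
theorem interior_closed [FiniteDimensional ℝ E] [T2Space M] (h : IsCircleAction (E := E) Φ) :
    IsClosed (interior {x : M | ∀ t, Φ t x = x}) := by
  set F := interior {x : M | ∀ t, Φ t x = x} with hF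
  have hcontΦ : Continuous (fun p : ℝ × M => Φ p.1 p.2) := h.smooth.continuous
  have hFixClosed : IsClosed {x : M | ∀ t, Φ t x = x} := by
    have : {x : M | ∀ t, Φ t x = x} = ⋂ t : ℝ, {x | Φ t x = x} := by
      ext x
      simp
    rw [this]
    refine isClosed_iInter fun t => ?_
    exact isClosed_eq (h.smooth_space t).continuous continuous_id
  have hFfix : ∀ y ∈ F, ∀ t, Φ t y = y := fun y hy => interior_subset hy
  rw [isClosed_iff_clusterPt]
  intro x hx
  have hxcl : x ∈ closure F := mem_closure_iff_clusterPt.2 hx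
  have hxfix : ∀ t, Φ t x = x := by
    have h1 : closure F ⊆ {x : M | ∀ t, Φ t x = x} :=
      closure_minimal interior_subset hFixClosed
    exact h1 hxcl
  obtain ⟨Y, hY, hY0, U, hU, hx0U, hUs, hYU⟩ := exists_global_chart (E := E) x
  set φ := extChartAt 𝓘(ℝ, E) x with hφ
  have htarget : IsOpen φ.target := isOpen_extChartAt_target x
  set H : ℝ × E → E := fun p => Y (Φ p.1 (φ.symm p.2)) with hH
  have hHs : ContDiffOn ℝ ∞ H (univ ×ˢ φ.target) := by
    have h1 : ContMDiffOn 𝓘(ℝ, E) 𝓘(ℝ, E) ∞ φ.symm φ.target := contMDiffOn_extChartAt_symm x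
    have h2 : ContMDiffOn 𝓘(ℝ, ℝ × E) 𝓘(ℝ, E) ∞ (fun p : ℝ × E => φ.symm p.2)
        (univ ×ˢ φ.target) := by
      have h3 : ContMDiff 𝓘(ℝ, ℝ × E) 𝓘(ℝ, E) ∞ (fun p : ℝ × E => p.2) := contDiff_snd.contMDiff
      exact h1.comp h3.contMDiffOn (fun p hp => hp.2)
    have h4 : ContMDiffOn 𝓘(ℝ, ℝ × E) 𝓘(ℝ, ℝ) ∞ (fun p : ℝ × E => p.1) (univ ×ˢ φ.target) :=
      (contDiff_fst.contMDiff).contMDiffOn
    have h5 : ContMDiffOn 𝓘(ℝ, ℝ × E) 𝓘(ℝ, E) ∞ H (univ ×ˢ φ.target) :=
      hY.comp_contMDiffOn (h.smooth.comp_contMDiffOn (h4.prodMk h2))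
    exact h5.contDiffOn
  have hopen : IsOpen (univ ×ˢ φ.target : Set (ℝ × E)) := isOpen_univ.prod htarget
  set D : ℝ × E → E →L[ℝ] E := fun p => (fderiv ℝ H p).comp (ContinuousLinearMap.inr ℝ ℝ E)
    with hD
  have hDc : ContinuousOn D (univ ×ˢ φ.target) := by
    have h1 : ContinuousOn (fderiv ℝ H) (univ ×ˢ φ.target) :=
      hHs.continuousOn_fderiv_of_isOpen hopen (by simp)
    exact h1.clm_comp continuousOn_const
  have hHd : ∀ t, ∀ z ∈ φ.target, HasFDerivAt (fun z => H (t, z)) (D (t, z)) z := by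
    intro t z hz
    have h1 : HasFDerivAt H (fderiv ℝ H (t, z)) (t, z) :=
      ((hHs.differentiableOn (by simp)).differentiableAt
        (hopen.mem_nhds ⟨mem_univ _, hz⟩)).hasFDerivAt
    exact h1.comp z (hasFDerivAt_prodMk_right t z)
  set z0 := φ x with hz0
  have hz0t : z0 ∈ φ.target := mem_extChartAt_target x
  -- the derivative at the centre is the identity
  have hD0 : ∀ t, D (t, z0) = ContinuousLinearMap.id ℝ E := by
    intro t
    by_contra hne
    have hct : ContinuousAt (fun z => D (t, z)) z0 := by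
      have h1 : ContinuousAt D (t, z0) := hDc.continuousAt (hopen.mem_nhds ⟨mem_univ _, hz0t⟩)
      have h2 : ContinuousAt (fun z : E => (t, z)) z0 := by fun_prop
      exact ContinuousAt.comp (g := D) (f := fun z : E => (t, z)) h1 h2
    have h1 : ∀ᶠ z in 𝓝 z0, D (t, z) ≠ ContinuousLinearMap.id ℝ E :=
      hct.eventually_ne hne
    have h2 : ∀ᶠ z in 𝓝 z0, z ∈ φ.target := htarget.mem_nhds hz0t
    have h3 : ∀ᶠ y in 𝓝 x, D (t, φ y) ≠ ContinuousLinearMap.id ℝ E :=
      (continuousAt_extChartAt x).eventually h1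
    have h4 : ∀ᶠ y in 𝓝 x, y ∈ U ∧ y ∈ φ.source := by
      filter_upwards [hU.mem_nhds hx0U, extChartAt_source_mem_nhds (I := 𝓘(ℝ, E)) x] with y k1 k2
      exact ⟨k1, k2⟩
    obtain ⟨y, hyF, hy1, hy2, hy3⟩ : ∃ y ∈ F, D (t, φ y) ≠ ContinuousLinearMap.id ℝ E ∧ y ∈ U ∧
        y ∈ φ.source := by
      have h5 := (mem_closure_iff_frequently.1 hxcl).and_eventually (h3.and h4)
      obtain ⟨y, hy⟩ := h5.exists
      exact ⟨y, hy.1, hy.2.1, hy.2.2.1, hy.2.2.2⟩
    apply hy1
    have h6 : φ y ∈ φ.target := φ.map_source hy3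
    have h7 : ∀ᶠ z in 𝓝 (φ y), φ.symm z ∈ F ∩ U := by
      have h8 : ContinuousAt φ.symm (φ y) := continuousAt_extChartAt_symm' hy3
      have h9 : φ.symm (φ y) = y := φ.left_inv hy3
      apply h8
      rw [h9]
      exact (isOpen_interior.inter hU).mem_nhds ⟨hyF, hy2⟩
    have h8 : ∀ᶠ z in 𝓝 (φ y), z ∈ φ.target := htarget.mem_nhds h6
    have h9 : (fun z => H (t, z)) =ᶠ[𝓝 (φ y)] fun z => z - z0 := by
      filter_upwards [h7, h8] with z hz hzt
      simp only [hH]
      rw [hFfix _ hz.1 t, hYU _ hz.2, φ.right_inv hzt]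
    have h10 : HasFDerivAt (fun z => H (t, z)) (ContinuousLinearMap.id ℝ E) (φ y) :=
      ((hasFDerivAt_id (φ y)).sub_const z0).congr_of_eventuallyEq h9
    exact (hHd t (φ y) h6).unique h10
  -- a uniform neighbourhood
  obtain ⟨δ, hδ, hball⟩ : ∃ δ > 0, ∀ t ∈ Icc (0 : ℝ) 1, ∀ z ∈ Metric.ball z0 δ,
      z ∈ φ.target ∧ ‖D (t, z) - ContinuousLinearMap.id ℝ E‖ ≤ 1 / 2 := by
    set W : Set (ℝ × E) := (univ ×ˢ φ.target) ∩
      (fun p => ‖D p - ContinuousLinearMap.id ℝ E‖) ⁻¹' Iio (1 / 2) with hW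
    have hWo : IsOpen W := by
      have h1 : ContinuousOn (fun p => ‖D p - ContinuousLinearMap.id ℝ E‖) (univ ×ˢ φ.target) :=
        (hDc.sub continuousOn_const).norm
      exact h1.isOpen_inter_preimage hopen isOpen_Iio
    have hsub : Icc (0 : ℝ) 1 ×ˢ {z0} ⊆ W := by
      rintro ⟨t, z⟩ ⟨_, hz⟩
      have hz' : z = z0 := hz
      subst hz'
      refine ⟨⟨mem_univ _, hz0t⟩, ?_⟩
      simp only [mem_preimage, mem_Iio]
      rw [hD0 t, sub_self, norm_zero]
      norm_num
    obtain ⟨u, v, hu, hv, hIu, hzv, huv⟩ := generalized_tube_lemma isCompact_Icc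
      isCompact_singleton hWo hsub
    obtain ⟨δ, hδ, hb⟩ := Metric.isOpen_iff.1 hv z0 (hzv rfl)
    refine ⟨δ, hδ, fun t ht z hz => ?_⟩
    have h1 : (t, z) ∈ W := huv ⟨hIu ht, hb hz⟩
    exact ⟨h1.1.2, (mem_Iio.1 h1.2).le⟩
  -- the averaged chart
  set a : E → E := fun z => ∫ t in (0 : ℝ)..1, H (t, z) with ha
  have hHint : ∀ z ∈ φ.target, IntervalIntegrable (fun t => H (t, z)) volume 0 1 := by
    intro z hz
    have h1 : ContinuousOn (fun t : ℝ => H (t, z)) univ := by
      refine hHs.continuousOn.comp (by fun_prop) ?_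
      intro t _
      exact ⟨mem_univ _, hz⟩
    exact (continuousOn_univ.1 h1).intervalIntegrable _ _
  have hinj : ∀ z ∈ Metric.ball z0 δ, ∀ z' ∈ Metric.ball z0 δ, a z = a z' → z = z' := by
    intro z hz z' hz' haz
    have hzt : z ∈ φ.target := (hball 0 (by simp) z hz).1
    have hzt' : z' ∈ φ.target := (hball 0 (by simp) z' hz').1
    have h1 : ∀ t ∈ Icc (0 : ℝ) 1, ‖(H (t, z) - z) - (H (t, z') - z')‖ ≤ 1 / 2 * ‖z - z'‖ := by
      intro t ht
      refine (convex_ball z0 δ).norm_image_sub_le_of_norm_hasFDerivWithin_le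
        (f := fun z => H (t, z) - z) (f' := fun z => D (t, z) - ContinuousLinearMap.id ℝ E)
        (fun w hw => ?_) (fun w hw => (hball t ht w hw).2) hz' hz
      exact ((hHd t w (hball t ht w hw).1).sub (hasFDerivAt_id w)).hasFDerivWithinAt
    have h2 : a z - a z' - (z - z') =
        ∫ t in (0 : ℝ)..1, ((H (t, z) - z) - (H (t, z') - z')) := by
      have e1 : (∫ t in (0 : ℝ)..1, (H (t, z) - z)) = a z - z := by
        rw [intervalIntegral.integral_sub (hHint z hzt) intervalIntegrable_const]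
        simp [ha]
      have e2 : (∫ t in (0 : ℝ)..1, (H (t, z') - z')) = a z' - z' := by
        rw [intervalIntegral.integral_sub (hHint z' hzt') intervalIntegrable_const]
        simp [ha]
      rw [intervalIntegral.integral_sub ((hHint z hzt).sub intervalIntegrable_const)
        ((hHint z' hzt').sub intervalIntegrable_const), e1, e2]
      abel
    have h3 : ‖a z - a z' - (z - z')‖ ≤ (1 / 2 * ‖z - z'‖) * |(1 : ℝ) - 0| := by
      rw [h2]
      apply intervalIntegral.norm_integral_le_of_norm_le_const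
      intro t ht
      rw [uIoc_of_le zero_le_one] at ht
      exact h1 t ⟨ht.1.le, ht.2⟩
    rw [haz, sub_self, zero_sub, norm_neg, sub_zero, abs_one, mul_one] at h3
    have h4 : ‖z - z'‖ = 0 := le_antisymm (by linarith) (norm_nonneg _)
    exact sub_eq_zero.1 (norm_eq_zero.1 h4)
  -- points near `x` whose orbit stays near `x`
  have hV : ∀ᶠ y in 𝓝 x, y ∈ φ.source ∧ φ y ∈ Metric.ball z0 δ := by
    have k1 : ∀ᶠ y in 𝓝 x, φ y ∈ Metric.ball z0 δ :=
      (continuousAt_extChartAt x).eventually (Metric.ball_mem_nhds z0 hδ)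
    filter_upwards [k1, extChartAt_source_mem_nhds (I := 𝓘(ℝ, E)) x] with y k2 k3
    exact ⟨k3, k2⟩
  obtain ⟨V, hVs, hVo, hxV⟩ := eventually_nhds_iff.1 hV
  obtain ⟨u, v, hu, hv, hIu, hxv, huv⟩ := generalized_tube_lemma (isCompact_Icc (a := (0 : ℝ)) (b := 1))
    (isCompact_singleton (x := x)) (hVo.preimage hcontΦ) (by
      rintro ⟨t, y⟩ ⟨_, hy⟩
      have hy' : y = x := hy
      subst hy'
      change Φ t y ∈ V
      rw [hxfix t]
      exact hxV)
  refine mem_interior.2 ⟨v, fun y hy => ?_, hv, hxv rfl⟩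
  apply fixed_of_unit h
  intro s hs
  have hy1 : ∀ t ∈ Icc (0 : ℝ) 1, Φ t y ∈ V := fun t ht => huv (mk_mem_prod (hIu ht) hy)
  have hy0 : y ∈ V := by
    have := hy1 0 (by simp)
    rwa [h.zero] at this
  have hA : ∀ w ∈ V, a (φ w) = ∫ t in (0 : ℝ)..1, Y (Φ t w) := by
    intro w hw
    simp only [ha, hH]
    rw [φ.left_inv (hVs w hw).1]
  have hshift : (∫ t in (0 : ℝ)..1, Y (Φ t (Φ s y))) = ∫ t in (0 : ℝ)..1, Y (Φ t y) := by
    have k1 : (fun t => Y (Φ t (Φ s y))) = fun t => (fun t => Y (Φ t y)) (t + s) := by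
      funext t
      simp only
      rw [h.add]
    rw [k1, intervalIntegral.integral_comp_add_right (fun t => Y (Φ t y)) s]
    have k2 : Function.Periodic (fun t => Y (Φ t y)) 1 := by
      intro t
      simp only
      rw [h.add, h.one]
    have k3 := k2.intervalIntegral_add_eq s 0
    rw [zero_add] at k3
    rw [zero_add, add_comm]
    exact k3
  have heq : φ (Φ s y) = φ y := by
    apply hinj _ (hVs _ (hy1 s hs)).2 _ (hVs _ hy0).2
    rw [hA _ (hy1 s hs), hA _ hy0, hshift]
  exact φ.injOn (hVs _ (hy1 s hs)).1 (hVs _ hy0).1 heq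

theorem dense_moved [FiniteDimensional ℝ E] [T2Space M] [ConnectedSpace M]
    (h : IsCircleAction (E := E) Φ) (hne : ∃ t x, Φ t x ≠ x) : Dense {x : M | ∃ t, Φ t x ≠ x} := by
  have h1 : IsClopen (interior {x : M | ∀ t, Φ t x = x}) := ⟨interior_closed h, isOpen_interior⟩
  have h2 : {x : M | ∃ t, Φ t x ≠ x} = {x : M | ∀ t, Φ t x = x}ᶜ := by
    ext x
    simp
  rw [h2, ← interior_eq_empty_iff_dense_compl]
  rcases isClopen_iff.1 h1 with h3 | h3
  · exact h3
  · exfalso
    obtain ⟨t, x, hx⟩ := hne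
    have h4 : x ∈ interior {x : M | ∀ t, Φ t x = x} := by
      rw [h3]
      exact mem_univ x
    exact hx (interior_subset h4 t)

variable {L : TangentBundle 𝓘(ℝ, E) M → ℝ}

/-- relative equilibria on every level, for connected manifolds -/
theorem main_connected [FiniteDimensional ℝ E] [CompactSpace M] [T2Space M] [ConnectedSpace M]
    (h : IsCircleAction (E := E) Φ) (hne : ∃ t x, Φ t x ≠ x) (hL : IsTonelli L)
    (hinv : IsInvariant L Φ) (k : ℝ) (hk : ∃ p, energy L p = k) :
    ∃ (x : M) (c : ℝ), IsExtremal L (fun t => Φ (c * t) x) ∧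
      ∀ t, energy L (vel (fun t => Φ (c * t) x) t) = k :=
  main h hL hinv (dense_moved h hne) k hk

/-- a relative equilibrium is a singularity or a periodic orbit -/
theorem sing_or_periodic (h : IsCircleAction (E := E) Φ) {k : ℝ} {x : M} {c : ℝ}
    (h1 : IsExtremal L (fun t => Φ (c * t) x))
    (h2 : ∀ t, energy L (vel (fun t => Φ (c * t) x) t) = k) :
    HasSingularity L k ∨ HasPeriodicOrbit L k := by
  by_cases hc : ∀ t, Φ (c * t) x = x
  · left
    have h3 : (fun t => Φ (c * t) x) = fun _ : ℝ => x := funext hc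
    refine ⟨x, ?_, ?_⟩
    · rw [← h3]
      exact h1
    · have h4 := h2 0
      rw [h3] at h4
      have h5 : vel (E := E) (fun _ : ℝ => x) 0 = ⟨x, (0 : E)⟩ := by
        unfold vel
        rw [mfderiv_const]
        rfl
      rw [h5] at h4
      exact h4
  · right
    push Not at hc
    obtain ⟨t0, ht0⟩ := hc
    have hc0 : c ≠ 0 := by
      rintro rfl
      apply ht0
      rw [zero_mul, h.zero]
    refine ⟨fun t => Φ (c * t) x, |c|⁻¹, by positivity, ?_, ?_, ⟨t0, ?_⟩, h1, h2⟩
    · have h3 : ContMDiff 𝓘(ℝ, ℝ) 𝓘(ℝ, ℝ) ∞ (fun t : ℝ => c * t) :=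
        (contDiff_const.mul contDiff_id).contMDiff
      exact (h.smooth_time x).comp h3
    · intro t
      simp only
      have hper := h.periodic x
      rcases lt_or_gt_of_ne hc0 with hneg | hpos
      · have h4 : c * (t + |c|⁻¹) = c * t - 1 := by
          rw [abs_of_neg hneg]
          field_simp
          ring
        rw [h4]
        exact hper.sub_eq _
      · have h4 : c * (t + |c|⁻¹) = c * t + 1 := by
          rw [abs_of_pos hpos]
          field_simp
        rw [h4]
        exact hper _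
    · simp only
      rw [mul_zero, h.zero]
      exact ht0

end

end Pool.Agent.TSYM46
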