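import Pool.Agent.Lib.TSYM46.Defs

open Set Filter Topology

namespace Pool.Agent.TSYM46

/-- the line of slope `s` lies below `f + k` on the positive half line -/
def Below (f : ℝ → ℝ) (k s : ℝ) : Prop := ∀ c : ℝ, 0 < c → s * c ≤ f c + k

theorem tangent_le {f : ℝ → ℝ} (hf : ConvexOn ℝ univ f) (hd : Differentiable ℝ f) (c1 c : ℝ) :
    f c1 + deriv f c1 * (c - c1) ≤ f c := by
  rcases lt_trichotomy c1 c with h | h | h
  · have h1 := hf.deriv_le_slope (mem_univ c1) (mem_univ c) h (hd c1)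
    rw [slope_def_field, le_div_iff₀ (by linarith)] at h1
    linarith
  · subst h
    simp
  · have h1 := hf.slope_le_deriv (mem_univ c) (mem_univ c1) h (hd c1)
    rw [slope_def_field, div_le_iff₀ (by linarith)] at h1
    nlinarith

theorem below_of_energy_le {f : ℝ → ℝ} (hf : ConvexOn ℝ univ f) (hd : Differentiable ℝ f)
    {k c1 : ℝ} (h : c1 * deriv f c1 - f c1 ≤ k) : Below f k (deriv f c1) := by
  intro c _
  have h1 := tangent_le hf hd c1 c
  nlinarith

theorem attain {f : ℝ → ℝ} (hf : ConvexOn ℝ univ f) (hd : Differentiable ℝ f)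
    (hsup : Tendsto (fun c => f c / c) atTop atTop) {k s : ℝ} (hs : Below f k s)
    (hmax : ∀ s', Below f k s' → s' ≤ s) :
    ∃ c : ℝ, 0 ≤ c ∧ deriv f c = s ∧ c * s - f c = k := by
  set h : ℝ → ℝ := fun c => f c + k - s * c with hh
  have hcont : Continuous h := by
    have := hd.continuous
    fun_prop
  have hpos : ∀ c, 0 < c → 0 ≤ h c := by
    intro c hc
    have := hs c hc
    simp only [hh]
    linarith
  have hpos0 : ∀ c, 0 ≤ c → 0 ≤ h c := by
    intro c hc
    rcases hc.lt_or_eq with hc | hc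
    · exact hpos c hc
    · subst hc
      have h1 : Tendsto h (𝓝[>] 0) (𝓝 (h 0)) := hcont.continuousAt.tendsto.mono_left
        nhdsWithin_le_nhds
      exact ge_of_tendsto h1 (eventually_nhdsWithin_of_forall fun c hc => hpos c hc)
  obtain ⟨R, hR1, hR⟩ : ∃ R : ℝ, 1 ≤ R ∧ ∀ c, R ≤ c → c ≤ h c := by
    have h1 := hsup.eventually_ge_atTop (s + 1 + |k|)
    obtain ⟨R, hR⟩ := (h1.and (eventually_ge_atTop (1 : ℝ))).exists_forall_of_atTop
    refine ⟨max R 1, le_max_right _ _, fun c hc => ?_⟩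
    have h2 := hR c (le_trans (le_max_left _ _) hc)
    have hc1 : 1 ≤ c := h2.2
    have h3 := h2.1
    rw [le_div_iff₀ (by linarith)] at h3
    simp only [hh]
    have h4 : -|k| ≤ k := neg_abs_le k
    have h5 : 0 ≤ |k| := abs_nonneg k
    nlinarith
  obtain ⟨c0, hc0, hmin⟩ := (isCompact_Icc (a := (0 : ℝ)) (b := R)).exists_isMinOn
    ⟨0, by constructor <;> linarith⟩ hcont.continuousOn
  have hmin' : ∀ c, 0 ≤ c → c ≤ R → h c0 ≤ h c := fun c h1 h2 => hmin ⟨h1, h2⟩
  have hzero : h c0 = 0 := by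
    by_contra hne
    have hm : 0 < h c0 := lt_of_le_of_ne (hpos0 c0 hc0.1) (Ne.symm hne)
    set ε := min (h c0 / R) 1 with hε
    have hRpos : 0 < R := by linarith
    have hεpos : 0 < ε := lt_min (div_pos hm hRpos) one_pos
    have hB : Below f k (s + ε) := by
      intro c hc
      have h1 : ε * c ≤ h c := by
        rcases le_total c R with h2 | h2
        · have h3 : ε * c ≤ (h c0 / R) * R :=
            mul_le_mul (min_le_left _ _) h2 hc.le (div_pos hm hRpos).le
          rw [div_mul_cancel₀ _ hRpos.ne'] at h3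
          exact h3.trans (hmin' c hc.le h2)
        · have h3 : ε * c ≤ 1 * c := mul_le_mul_of_nonneg_right (min_le_right _ _) hc.le
          rw [one_mul] at h3
          exact h3.trans (hR c h2)
      simp only [hh] at h1
      linarith
    have := hmax _ hB
    linarith
  have hfc0 : f c0 + k - s * c0 = 0 := hzero
  refine ⟨c0, hc0.1, ?_, by linarith⟩
  rcases hc0.1.lt_or_eq with hpos' | heq
  · -- interior minimum
    have hloc : IsLocalMin h c0 := by
      filter_upwards [lt_mem_nhds hpos'] with c hc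
      rw [hzero]
      exact hpos c hc
    have h1 : HasDerivAt h (deriv f c0 - s * 1) c0 :=
      ((hd c0).hasDerivAt.add_const k).sub ((hasDerivAt_id' c0).const_mul s)
    have h2 := hloc.hasDerivAt_eq_zero h1
    linarith
  · subst heq
    apply le_antisymm
    · apply hmax
      apply below_of_energy_le hf hd
      linarith
    · have h1 : Tendsto (slope f 0) (𝓝[>] 0) (𝓝 (deriv f 0)) :=
        ((hasDerivAt_iff_tendsto_slope.1 (hd 0).hasDerivAt)).mono_left
          (nhdsWithin_mono _ fun x hx => ne_of_gt hx)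
      refine ge_of_tendsto h1 (eventually_nhdsWithin_of_forall fun c hc => ?_)
      have hc' : 0 < c := hc
      rw [slope_def_field, le_div_iff₀ (by linarith)]
      have := hs c hc'
      linarith

/-- the best slope is attained on a compact space -/
theorem exists_best {M : Type*} [TopologicalSpace M] [CompactSpace M] {l : M → ℝ → ℝ}
    (hl : ∀ c, Continuous fun x => l x c) {k s0 : ℝ} {x0 : M} (h0 : Below (l x0) k s0) :
    ∃ (x : M) (s : ℝ), s0 ≤ s ∧ Below (l x) k s ∧ ∀ y s', Below (l y) k s' → s' ≤ s := by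
  set S : Set ℝ := {s | ∃ x, Below (l x) k s} with hS
  have hne : S.Nonempty := ⟨s0, x0, h0⟩
  obtain ⟨B, hB⟩ := (isCompact_univ (X := M)).exists_bound_of_continuousOn (hl 1).continuousOn
  have hbdd : BddAbove S := by
    refine ⟨B + k, ?_⟩
    rintro s ⟨x, hx⟩
    have h1 := hx 1 one_pos
    have h2 := hB x (mem_univ x)
    rw [Real.norm_eq_abs] at h2
    have h3 := le_abs_self (l x 1)
    linarith
  set s := sSup S with hs
  have hclosed : ∀ r, IsClosed {x | Below (l x) k r} := by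
    intro r
    have : {x | Below (l x) k r} = ⋂ (c : ℝ) (_ : 0 < c), {x | r * c ≤ l x c + k} := by
      ext x
      simp [Below]
    rw [this]
    refine isClosed_iInter fun c => isClosed_iInter fun _ => ?_
    exact isClosed_le continuous_const ((hl c).add continuous_const)
  have hmono : ∀ r r', r ≤ r' → {x | Below (l x) k r'} ⊆ {x | Below (l x) k r} := by
    intro r r' hr x hx c hc
    exact (mul_le_mul_of_nonneg_right hr hc.le).trans (hx c hc)
  have hnonempty : (⋂ r : Iio s, {x | Below (l x) k r}).Nonempty := by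
    have : Nonempty (Iio s) := ⟨⟨s - 1, by simp⟩⟩
    apply IsCompact.nonempty_iInter_of_directed_nonempty_isCompact_isClosed
    · intro a b
      refine ⟨⟨max a.1 b.1, mem_Iio.2 (max_lt a.2 b.2)⟩, ?_, ?_⟩
      · exact hmono _ _ (le_max_left _ _)
      · exact hmono _ _ (le_max_right _ _)
    · intro r
      obtain ⟨r', ⟨x, hx⟩, hr'⟩ := exists_lt_of_lt_csSup hne r.2
      exact ⟨x, hmono _ _ hr'.le hx⟩
    · intro r
      exact (hclosed r).isCompact
    · intro r
      exact hclosed r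
  obtain ⟨x, hx⟩ := hnonempty
  refine ⟨x, s, le_csSup hbdd ⟨x0, h0⟩, ?_, fun y s' hy => le_csSup hbdd ⟨y, hy⟩⟩
  intro c hc
  have h1 : ∀ r, r < s → r * c ≤ l x c + k := by
    intro r hr
    have h2 : x ∈ {x | Below (l x) k r} := mem_iInter.1 hx ⟨r, hr⟩
    exact h2 c hc
  by_contra hlt
  push Not at hlt
  have h2 : (l x c + k) / c < s := by
    rw [div_lt_iff₀ hc]
    exact hlt
  obtain ⟨r, hr1, hr2⟩ := exists_between h2
  have h3 := h1 r hr2
  rw [div_lt_iff₀ hc] at hr1
  linarith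

/-- first order condition: the derivative in the parameter cannot be positive -/
theorem first_order {f : ℝ × ℝ → ℝ} (hf : ContDiff ℝ 2 f)
    (hconv : ∀ s, ConvexOn ℝ univ fun c => f (s, c)) {k c0 s0 : ℝ} (hc0 : 0 ≤ c0)
    (hs0 : deriv (fun c => f (0, c)) c0 = s0) (hk : c0 * s0 - f (0, c0) = k)
    (hmax : ∀ s s', Below (fun c => f (s, c)) k s' → s' ≤ s0)
    (hcc : 0 < deriv (deriv fun c => f (0, c)) c0) :
    fderiv ℝ f (0, c0) ((1 : ℝ), (0 : ℝ)) ≤ 0 := by
  by_contra hpos
  push Not at hpos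
  set fs := fderiv ℝ f (0, c0) ((1 : ℝ), (0 : ℝ)) with hfs
  set j : ℝ × ℝ → ℝ := fun p => fderiv ℝ f p ((0 : ℝ), (1 : ℝ)) with hj
  have hjs : ContDiff ℝ 1 j := by
    have : ContDiff ℝ 1 (fderiv ℝ f) := hf.fderiv_right (by norm_num)
    exact this.clm_apply contDiff_const
  have hfd : Differentiable ℝ f := hf.differentiable (by norm_num)
  have hjd : Differentiable ℝ j := hjs.differentiable (by norm_num)
  have hline : ∀ s c, HasDerivAt (fun c => f (s, c)) (j (s, c)) c := by
    intro s c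
    have h2 : HasDerivAt (fun t' : ℝ => (s, t')) ((0 : ℝ), (1 : ℝ)) c :=
      (hasDerivAt_const c s).prodMk (hasDerivAt_id c)
    exact (hfd (s, c)).hasFDerivAt.comp_hasDerivAt c h2
  have hderiv : ∀ s, deriv (fun c => f (s, c)) = fun c => j (s, c) := fun s =>
    funext fun c => (hline s c).deriv
  have hlinej : HasDerivAt (fun c => j (0, c)) (fderiv ℝ j (0, c0) ((0 : ℝ), (1 : ℝ))) c0 := by
    have h2 : HasDerivAt (fun t' : ℝ => ((0 : ℝ), t')) ((0 : ℝ), (1 : ℝ)) c0 :=
      (hasDerivAt_const c0 (0 : ℝ)).prodMk (hasDerivAt_id c0)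
    exact (hjd (0, c0)).hasFDerivAt.comp_hasDerivAt c0 h2
  set jc := fderiv ℝ j (0, c0) ((0 : ℝ), (1 : ℝ)) with hjc
  set js := fderiv ℝ j (0, c0) ((1 : ℝ), (0 : ℝ)) with hjs'
  have hjcpos : 0 < jc := by
    rw [hderiv, hlinej.deriv] at hcc
    exact hcc
  have hj0 : j (0, c0) = s0 := by
    rw [hderiv] at hs0
    exact hs0
  set η := fs / (2 * (c0 + 1)) with hη
  have hηpos : 0 < η := by positivity
  set a := (η - js) / jc with ha
  have haj : js + a * jc = η := by
    rw [ha, div_mul_cancel₀ _ hjcpos.ne']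
    ring
  have hpath : HasDerivAt (fun s : ℝ => (s, c0 + a * s)) ((1 : ℝ), a) 0 := by
    have h1 : HasDerivAt (fun s : ℝ => c0 + a * s) (a * 1) 0 :=
      ((hasDerivAt_id' (0 : ℝ)).const_mul a).const_add c0
    rw [mul_one] at h1
    exact (hasDerivAt_id' (0 : ℝ)).prodMk h1
  have h00 : ((0 : ℝ), c0 + a * 0) = (0, c0) := by simp
  have hvec : ((1 : ℝ), a) = ((1 : ℝ), (0 : ℝ)) + a • ((0 : ℝ), (1 : ℝ)) := by simp
  have hα : HasDerivAt (fun s : ℝ => j (s, c0 + a * s)) η 0 := by
    have h1 : HasFDerivAt j (fderiv ℝ j (0, c0)) (0, c0 + a * 0) := by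
      rw [h00]
      exact (hjd (0, c0)).hasFDerivAt
    have h2 := h1.comp_hasDerivAt (0 : ℝ) hpath
    rw [hvec, map_add, map_smul, smul_eq_mul, ← hjs', ← hjc, haj] at h2
    exact h2
  have hfpath : HasDerivAt (fun s : ℝ => f (s, c0 + a * s)) (fs + a * s0) 0 := by
    have h1 : HasFDerivAt f (fderiv ℝ f (0, c0)) (0, c0 + a * 0) := by
      rw [h00]
      exact (hfd (0, c0)).hasFDerivAt
    have h2 := h1.comp_hasDerivAt (0 : ℝ) hpath
    have h3 : fderiv ℝ f (0, c0) ((0 : ℝ), (1 : ℝ)) = s0 := hj0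
    rw [hvec, map_add, map_smul, smul_eq_mul, h3, ← hfs] at h2
    exact h2
  have hζ : HasDerivAt (fun s : ℝ => (c0 + a * s) * j (s, c0 + a * s) - f (s, c0 + a * s))
      (c0 * η - fs) 0 := by
    have h1 : HasDerivAt (fun s : ℝ => c0 + a * s) (a * 1) 0 :=
      ((hasDerivAt_id' (0 : ℝ)).const_mul a).const_add c0
    have h2 := (h1.mul hα).sub hfpath
    have h3 : a * 1 * j (0, c0 + a * 0) + (c0 + a * 0) * η - (fs + a * s0) = c0 * η - fs := by
      rw [h00, hj0]
      ring
    rw [h3] at h2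
    exact h2
  have hζneg : c0 * η - fs < 0 := by
    have : c0 * η < fs := by
      rw [hη, mul_div_assoc', div_lt_iff₀ (by positivity)]
      nlinarith
    linarith
  have e1 : ∀ᶠ s in 𝓝[>] (0 : ℝ), s0 < j (s, c0 + a * s) := by
    have h1 : Tendsto (slope (fun s : ℝ => j (s, c0 + a * s)) 0) (𝓝[>] 0) (𝓝 η) :=
      (hasDerivAt_iff_tendsto_slope.1 hα).mono_left (nhdsWithin_mono _ fun x hx => ne_of_gt hx)
    filter_upwards [h1.eventually (lt_mem_nhds hηpos), self_mem_nhdsWithin] with s hs hs0'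
    have hs1 : (0 : ℝ) < s := hs0'
    rw [slope_def_field, sub_zero, h00, hj0, lt_div_iff₀ hs1, zero_mul] at hs
    linarith
  have e2 : ∀ᶠ s in 𝓝[>] (0 : ℝ), (c0 + a * s) * j (s, c0 + a * s) - f (s, c0 + a * s) < k := by
    have h1 : Tendsto (slope (fun s : ℝ => (c0 + a * s) * j (s, c0 + a * s) - f (s, c0 + a * s)) 0)
        (𝓝[>] 0) (𝓝 (c0 * η - fs)) :=
      (hasDerivAt_iff_tendsto_slope.1 hζ).mono_left (nhdsWithin_mono _ fun x hx => ne_of_gt hx)
    filter_upwards [h1.eventually (gt_mem_nhds hζneg), self_mem_nhdsWithin] with s hs hs0'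
    have hs1 : (0 : ℝ) < s := hs0'
    rw [slope_def_field, sub_zero, h00, hj0, div_lt_iff₀ hs1, zero_mul, mul_zero, add_zero,
      hk] at hs
    linarith
  obtain ⟨s, hs1, hs2⟩ := (e1.and e2).exists
  have h1 : Below (fun c => f (s, c)) k (deriv (fun c => f (s, c)) (c0 + a * s)) := by
    apply below_of_energy_le (hconv s) (fun c => (hline s c).differentiableAt)
    rw [hderiv]
    exact hs2.le
  have h2 := hmax s _ h1
  rw [hderiv] at h2
  simp only at h2
  linarith

end Pool.Agent.TSYM46
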