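import Pool.Agent.Lib.TSYM46.Flow

open Set Filter Topology Manifold ContDiff Bundle

namespace Pool.Agent.TSYM46

noncomputable section

variable {E : Type*} [NormedAddCommGroup E] [NormedSpace ℝ E]
  {M : Type*} [TopologicalSpace M] [ChartedSpace E M] [IsManifold 𝓘(ℝ, E) ∞ M]

/-- the coordinate vector of a tangent vector in the chart at `x0` -/
def coo (x0 : M) (q : TangentBundle 𝓘(ℝ, E) M) : E :=
  (trivializationAt E (TangentSpace 𝓘(ℝ, E)) x0 q).2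

theorem ext_eq (p0 q : TangentBundle 𝓘(ℝ, E) M) :
    (extChartAt 𝓘(ℝ, E).tangent p0 q : E × E) = (extChartAt 𝓘(ℝ, E) p0.1 q.1, coo p0.1 q) := by
  rfl

theorem coo_add (x0 x : M) (v w : E) :
    coo (E := E) x0 ⟨x, v + w⟩ = coo (E := E) x0 ⟨x, v⟩ + coo (E := E) x0 ⟨x, w⟩ := by
  unfold coo
  rw [TangentBundle.trivializationAt_apply, TangentBundle.trivializationAt_apply,
    TangentBundle.trivializationAt_apply]
  exact map_add _ _ _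

theorem coo_vel {x0 : M} {β : ℝ → M} {t : ℝ} (hx : β t ∈ (chartAt E x0).source)
    (hβ : MDifferentiableAt 𝓘(ℝ, ℝ) 𝓘(ℝ, E) β t) :
    coo (E := E) x0 (vel (E := E) β t) = deriv (fun t' => extChartAt 𝓘(ℝ, E) x0 (β t')) t := by
  have h1 : MDifferentiableAt 𝓘(ℝ, E) 𝓘(ℝ, E) (extChartAt 𝓘(ℝ, E) x0) (β t) :=
    mdifferentiableAt_extChartAt hx
  have h2 := mfderiv_comp t h1 hβ
  have h3 : mfderiv 𝓘(ℝ, E) 𝓘(ℝ, E) (extChartAt 𝓘(ℝ, E) x0) (β t) =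
      tangentCoordChange 𝓘(ℝ, E) (β t) x0 (β t) := by
    have := mfderiv_chartAt_eq_tangentCoordChange (I := 𝓘(ℝ, E)) hx
    rw [← this]
    rfl
  have h4 : mfderiv 𝓘(ℝ, ℝ) 𝓘(ℝ, E) (extChartAt 𝓘(ℝ, E) x0 ∘ β) t =
      fderiv ℝ (extChartAt 𝓘(ℝ, E) x0 ∘ β) t := mfderiv_eq_fderiv
  rw [h3] at h2
  have h5 : deriv (fun t' => extChartAt 𝓘(ℝ, E) x0 (β t')) t =
      fderiv ℝ (extChartAt 𝓘(ℝ, E) x0 ∘ β) t 1 := by
    rw [← fderiv_apply_one_eq_deriv]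
    rfl
  rw [h5, ← h4, h2]
  rfl

/-- the fibre derivative of `L` at `p0`, in the chart at the base point -/
def fib (L : TangentBundle 𝓘(ℝ, E) M → ℝ) (p0 : TangentBundle 𝓘(ℝ, E) M) : E →L[ℝ] ℝ :=
  (fderiv ℝ (fun z : E × E => L ((extChartAt 𝓘(ℝ, E).tangent p0).symm z))
    (extChartAt 𝓘(ℝ, E).tangent p0 p0)).comp (ContinuousLinearMap.inr ℝ E E)

theorem differentiable_chart {L : TangentBundle 𝓘(ℝ, E) M → ℝ}
    (hL : ContMDiff 𝓘(ℝ, E).tangent 𝓘(ℝ, ℝ) ∞ L) (p0 : TangentBundle 𝓘(ℝ, E) M) :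
    DifferentiableAt ℝ (fun z : E × E => L ((extChartAt 𝓘(ℝ, E).tangent p0).symm z))
      (extChartAt 𝓘(ℝ, E).tangent p0 p0) := by
  have h1 : ContMDiffOn 𝓘(ℝ, E × E) 𝓘(ℝ, E).tangent ∞
      (extChartAt 𝓘(ℝ, E).tangent p0).symm (extChartAt 𝓘(ℝ, E).tangent p0).target :=
    contMDiffOn_extChartAt_symm p0
  have h2 : ContMDiffOn 𝓘(ℝ, E × E) 𝓘(ℝ, ℝ) ∞
      (fun z : E × E => L ((extChartAt 𝓘(ℝ, E).tangent p0).symm z))
      (extChartAt 𝓘(ℝ, E).tangent p0).target := hL.comp_contMDiffOn h1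
  have h3 : (extChartAt 𝓘(ℝ, E).tangent p0).target ∈ 𝓝 (extChartAt 𝓘(ℝ, E).tangent p0 p0) :=
    extChartAt_target_mem_nhds p0
  have h4 := h2.contMDiffAt h3
  exact (h4.mdifferentiableAt (by simp)).differentiableAt

theorem pointwise {L : TangentBundle 𝓘(ℝ, E) M → ℝ}
    (hL : ContMDiff 𝓘(ℝ, E).tangent 𝓘(ℝ, ℝ) ∞ L) (x0 : M) (v0 : E)
    (x : ℝ → M) (a b : ℝ → E) (w : E) (hx : x 0 = x0) (ha : a 0 = v0) (hb : b 0 = 0)
    (hxc : ContinuousAt x 0)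
    (hP : MDifferentiableAt 𝓘(ℝ, ℝ) 𝓘(ℝ, E).tangent
      (fun s => (⟨x s, a s⟩ : TangentBundle 𝓘(ℝ, E) M)) 0)
    (hB : HasDerivAt (fun s => coo (E := E) x0 ⟨x s, b s⟩) w 0)
    (h0 : HasDerivAt (fun s => L ⟨x s, a s⟩) 0 0) :
    HasDerivAt (fun s => L ⟨x s, a s + b s⟩) (fib L ⟨x0, v0⟩ w) 0 := by
  set p0 : TangentBundle 𝓘(ℝ, E) M := ⟨x0, v0⟩ with hp0
  set κ := extChartAt 𝓘(ℝ, E).tangent p0 with hκ
  set Lk : E × E → ℝ := fun z : E × E => L (κ.symm z) with hLk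
  have hD : HasFDerivAt Lk (fderiv ℝ Lk (κ p0)) (κ p0) := (differentiable_chart hL p0).hasFDerivAt
  -- the chart along `P0`
  have hP0 : (⟨x 0, a 0⟩ : TangentBundle 𝓘(ℝ, E) M) = p0 := mk_eq (E := E) hx ha
  have hκd : MDifferentiableAt 𝓘(ℝ, E).tangent 𝓘(ℝ, E × E) κ
      ((fun s => (⟨x s, a s⟩ : TangentBundle 𝓘(ℝ, E) M)) 0) := by
    have : ((fun s => (⟨x s, a s⟩ : TangentBundle 𝓘(ℝ, E) M)) 0) = p0 := hP0
    rw [this]
    exact (contMDiffAt_extChartAt (n := ∞) (x := p0)).mdifferentiableAt (by simp)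
  have hA1 : DifferentiableAt ℝ (fun s => (κ ⟨x s, a s⟩ : E × E)) 0 :=
    (hκd.comp (0 : ℝ) hP).differentiableAt
  set A' : E × E := deriv (fun s => (κ ⟨x s, a s⟩ : E × E)) 0 with hA'
  have hA : HasDerivAt (fun s => (κ ⟨x s, a s⟩ : E × E)) A' 0 := hA1.hasDerivAt
  -- membership in the chart source
  have hsrc : ∀ᶠ s in 𝓝 (0 : ℝ), x s ∈ (chartAt E x0).source := by
    have : (chartAt E x0).source ∈ 𝓝 (x 0) := by
      rw [hx]
      exact chart_source_mem_nhds E x0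
    exact hxc this
  have hinv : ∀ᶠ s in 𝓝 (0 : ℝ), ∀ v : E, κ.symm (κ ⟨x s, v⟩) = (⟨x s, v⟩ : TangentBundle 𝓘(ℝ, E) M) := by
    filter_upwards [hsrc] with s hs v
    apply κ.left_inv
    rw [hκ, extChartAt_source]
    rw [TangentBundle.mem_chart_source_iff]
    exact hs
  have e1 : (fun s => L ⟨x s, a s⟩) =ᶠ[𝓝 0] fun s => Lk (κ ⟨x s, a s⟩) := by
    filter_upwards [hinv] with s hs
    simp only [hLk]
    rw [hs (a s)]
  have e2 : HasDerivAt (fun s => Lk (κ ⟨x s, a s⟩)) (fderiv ℝ Lk (κ p0) A') 0 := by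
    have hD' : HasFDerivAt Lk (fderiv ℝ Lk (κ p0)) (κ ⟨x 0, a 0⟩) := by
      rw [hP0]
      exact hD
    exact hD'.comp_hasDerivAt (0 : ℝ) hA
  have e3 : fderiv ℝ Lk (κ p0) A' = 0 := (e2.congr_of_eventuallyEq e1).unique h0
  have e4 : ∀ s, (κ ⟨x s, a s + b s⟩ : E × E) =
      κ ⟨x s, a s⟩ + ((0 : E), coo (E := E) x0 ⟨x s, b s⟩) := by
    intro s
    rw [hκ, ext_eq, ext_eq]
    rw [Prod.mk_add_mk, add_zero]
    congr 1
    exact coo_add x0 (x s) (a s) (b s)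
  have e5 : (fun s => L ⟨x s, a s + b s⟩) =ᶠ[𝓝 0]
      fun s => Lk ((κ ⟨x s, a s⟩ : E × E) + ((0 : E), coo (E := E) x0 ⟨x s, b s⟩)) := by
    filter_upwards [hinv] with s hs
    simp only [hLk]
    rw [← e4, hs (a s + b s)]
  have hb0 : coo (E := E) x0 ⟨x 0, b 0⟩ = 0 := by
    have h1 := coo_add (E := E) x0 (x 0) 0 0
    rw [add_zero] at h1
    rw [hb]
    simpa using h1
  have e6 : HasDerivAt (fun s => (κ ⟨x s, a s⟩ : E × E) + ((0 : E), coo (E := E) x0 ⟨x s, b s⟩))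
      (A' + ((0 : E), w)) 0 := hA.add ((hasDerivAt_const (0 : ℝ) (0 : E)).prodMk hB)
  have e7 : HasDerivAt (fun s => Lk ((κ ⟨x s, a s⟩ : E × E) +
      ((0 : E), coo (E := E) x0 ⟨x s, b s⟩))) (fderiv ℝ Lk (κ p0) (A' + ((0 : E), w))) 0 := by
    have hD' : HasFDerivAt Lk (fderiv ℝ Lk (κ p0))
        ((κ ⟨x 0, a 0⟩ : E × E) + ((0 : E), coo (E := E) x0 ⟨x 0, b 0⟩)) := by
      rw [hb0, hP0]
      have h00 : (κ p0 : E × E) + ((0 : E), (0 : E)) = κ p0 := by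
        rw [Prod.mk_zero_zero]
        exact add_zero _
      rw [h00]
      exact hD
    exact hD'.comp_hasDerivAt (0 : ℝ) e6
  have e8 : fderiv ℝ Lk (κ p0) (A' + ((0 : E), w)) = fib L p0 w := by
    rw [map_add, e3, zero_add]
    rfl
  rw [← e8]
  exact e7.congr_of_eventuallyEq e5

end

end Pool.Agent.TSYM46
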