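import Mathlib

/-!
Tonelli Lagrangians on manifolds: definitions (velocity, action, extremals, energy) used in the
hand-in on MP_fe6961_an.
-/

open Set Filter Topology Manifold ContDiff Bundle

namespace Pool.Agent.TSYM46

noncomputable section

variable {E : Type*} [NormedAddCommGroup E] [NormedSpace ℝ E]
  {M : Type*} [TopologicalSpace M] [ChartedSpace E M]

/-- The velocity of a curve `γ : ℝ → M` at time `t`, as a point of the tangent bundle. -/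
def vel (γ : ℝ → M) (t : ℝ) : TangentBundle 𝓘(ℝ, E) M :=
  ⟨γ t, mfderiv 𝓘(ℝ, ℝ) 𝓘(ℝ, E) γ t (1 : ℝ)⟩

/-- The energy `E(x,v) = ∂_v L(x,v) · v - L(x,v)` of a Lagrangian. -/
def energy (L : TangentBundle 𝓘(ℝ, E) M → ℝ) (p : TangentBundle 𝓘(ℝ, E) M) : ℝ :=
  deriv (fun r : ℝ => L ⟨p.1, r • p.2⟩) 1 - L p

/-- `γ` is an extremal of `L`: for every smooth variation `Γ(s, ·)` of `γ` with fixed ends the
action has derivative `0` at `s = 0`. -/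
def IsExtremal (L : TangentBundle 𝓘(ℝ, E) M → ℝ) (γ : ℝ → M) : Prop :=
  ∀ (a b : ℝ) (Γ : ℝ × ℝ → M), a ≤ b → ContMDiff 𝓘(ℝ, ℝ × ℝ) 𝓘(ℝ, E) ∞ Γ →
    (∀ t, Γ (0, t) = γ t) → (∀ s t, t ∉ Ioo a b → Γ (s, t) = γ t) →
    HasDerivAt (fun s : ℝ => ∫ t in a..b, L (vel (fun t' => Γ (s, t')) t)) 0 0

/-- A Tonelli Lagrangian: smooth, with positive definite fibrewise Hessian, and superlinear on
each fibre. -/
structure IsTonelli [IsManifold 𝓘(ℝ, E) ∞ M] (L : TangentBundle 𝓘(ℝ, E) M → ℝ) : Prop where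
  smooth : ContMDiff 𝓘(ℝ, E).tangent 𝓘(ℝ, ℝ) ∞ L
  convex : ∀ (x : M) (v w : TangentSpace 𝓘(ℝ, E) x), w ≠ 0 →
    0 < deriv (deriv (fun r : ℝ => L ⟨x, v + r • w⟩)) 0
  superlinear : ∀ (x : M) (v : TangentSpace 𝓘(ℝ, E) x), v ≠ 0 →
    Tendsto (fun r : ℝ => L ⟨x, r • v⟩ / r) atTop atTop

/-- The level `{E = k}` contains a singularity: a constant extremal. -/
def HasSingularity (L : TangentBundle 𝓘(ℝ, E) M → ℝ) (k : ℝ) : Prop :=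
  ∃ x : M, IsExtremal L (fun _ => x) ∧ energy L ⟨x, (0 : E)⟩ = k

/-- The level `{E = k}` contains a periodic orbit: a smooth nonconstant periodic extremal of
energy `k`. -/
def HasPeriodicOrbit (L : TangentBundle 𝓘(ℝ, E) M → ℝ) (k : ℝ) : Prop :=
  ∃ (γ : ℝ → M) (T : ℝ), 0 < T ∧ ContMDiff 𝓘(ℝ, ℝ) 𝓘(ℝ, E) ∞ γ ∧ (∀ t, γ (t + T) = γ t) ∧
    (∃ t, γ t ≠ γ 0) ∧ IsExtremal L γ ∧ ∀ t, energy L (vel γ t) = k

/-- A smooth action of the circle `ℝ/ℤ` on `M`, given as a flow with period one. -/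
structure IsCircleAction [IsManifold 𝓘(ℝ, E) ∞ M] (Φ : ℝ → M → M) : Prop where
  smooth : ContMDiff (𝓘(ℝ, ℝ).prod 𝓘(ℝ, E)) 𝓘(ℝ, E) ∞ (fun p : ℝ × M => Φ p.1 p.2)
  zero : ∀ x, Φ 0 x = x
  add : ∀ s t x, Φ (s + t) x = Φ s (Φ t x)
  one : ∀ x, Φ 1 x = x

/-- `L` is invariant under the flow `Φ`. -/
def IsInvariant (L : TangentBundle 𝓘(ℝ, E) M → ℝ) (Φ : ℝ → M → M) : Prop :=
  ∀ (t : ℝ) (p : TangentBundle 𝓘(ℝ, E) M),
    L (tangentMap 𝓘(ℝ, E) 𝓘(ℝ, E) (Φ t) p) = L p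

end

end Pool.Agent.TSYM46
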