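import Pool.Agent.Lib.TSYM46.Coord

open Set Filter Topology Manifold ContDiff Bundle MeasureTheory

namespace Pool.Agent.TSYM46

noncomputable section

variable {E : Type*} [NormedAddCommGroup E] [NormedSpace ℝ E]
  {M : Type*} [TopologicalSpace M] [ChartedSpace E M]

/-- velocity of the curves `t ↦ Γ(s,t)` through the tangent map of `Γ` -/
theorem vel_eq_tangentMap {Γ : ℝ × ℝ → M} (hΓ : ContMDiff 𝓘(ℝ, ℝ × ℝ) 𝓘(ℝ, E) ∞ Γ) (s t : ℝ) :
    vel (E := E) (fun t' => Γ (s, t')) t =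
      tangentMap 𝓘(ℝ, ℝ × ℝ) 𝓘(ℝ, E) Γ ⟨(s, t), ((0 : ℝ), (1 : ℝ))⟩ := by
  have h1 : MDifferentiableAt 𝓘(ℝ, ℝ × ℝ) 𝓘(ℝ, E) Γ (s, t) := hΓ.mdifferentiableAt (by simp)
  have h2 : HasMFDerivAt 𝓘(ℝ, ℝ) 𝓘(ℝ, ℝ × ℝ) (fun t' : ℝ => (s, t')) t
      (ContinuousLinearMap.inr ℝ ℝ ℝ) := by
    apply HasFDerivAt.hasMFDerivAt
    exact hasFDerivAt_prodMk_right s t
  have h3 := HasMFDerivAt.comp t h1.hasMFDerivAt h2
  have h4 : mfderiv 𝓘(ℝ, ℝ) 𝓘(ℝ, E) (fun t' => Γ (s, t')) t =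
      (mfderiv 𝓘(ℝ, ℝ × ℝ) 𝓘(ℝ, E) Γ (s, t)).comp (ContinuousLinearMap.inr ℝ ℝ ℝ) := h3.mfderiv
  unfold vel tangentMap
  rw [h4]
  rfl

theorem smooth_vel [IsManifold 𝓘(ℝ, E) ∞ M] {Γ : ℝ × ℝ → M}
    (hΓ : ContMDiff 𝓘(ℝ, ℝ × ℝ) 𝓘(ℝ, E) ∞ Γ) :
    ContMDiff 𝓘(ℝ, ℝ × ℝ) 𝓘(ℝ, E).tangent ∞
      (fun p : ℝ × ℝ => vel (E := E) (fun t' => Γ (p.1, t')) p.2) := by
  have h1 : ContMDiff 𝓘(ℝ, ℝ × ℝ).tangent 𝓘(ℝ, E).tangent ∞
      (tangentMap 𝓘(ℝ, ℝ × ℝ) 𝓘(ℝ, E) Γ) := hΓ.contMDiff_tangentMap (by simp)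
  have h2 : ContMDiff 𝓘(ℝ, ℝ × ℝ) 𝓘(ℝ, ℝ × ℝ).tangent ∞
      (fun p : ℝ × ℝ => (⟨p, ((0 : ℝ), (1 : ℝ))⟩ : TangentBundle 𝓘(ℝ, ℝ × ℝ) (ℝ × ℝ))) := by
    refine (contMDiff_vectorSpace_iff_contDiff (V := fun p : ℝ × ℝ => ((0 : ℝ), (1 : ℝ)))).2 ?_
    exact contDiff_const
  refine (h1.comp h2).congr ?_
  intro p
  exact vel_eq_tangentMap hΓ p.1 p.2

/-- differentiation of a parametric integral whose integrand has zero derivative -/
theorem hasDerivAt_integral_zero {h : ℝ × ℝ → ℝ} (hh : ContDiff ℝ ∞ h) (a b : ℝ)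
    (h0 : ∀ t, HasDerivAt (fun s => h (s, t)) 0 0) :
    HasDerivAt (fun s : ℝ => ∫ t in a..b, h (s, t)) 0 0 := by
  set h' : ℝ → ℝ → ℝ := fun s t => fderiv ℝ h (s, t) ((1 : ℝ), (0 : ℝ)) with hh'
  have hder : ∀ s t, HasDerivAt (fun s => h (s, t)) (h' s t) s := by
    intro s t
    have h1 : HasFDerivAt h (fderiv ℝ h (s, t)) (s, t) :=
      (hh.differentiable (by simp) (s, t)).hasFDerivAt
    have h2 : HasDerivAt (fun s : ℝ => (s, t)) ((1 : ℝ), (0 : ℝ)) s :=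
      (hasDerivAt_id s).prodMk (hasDerivAt_const s t)
    exact h1.comp_hasDerivAt s h2
  have hcont' : Continuous (fun p : ℝ × ℝ => h' p.1 p.2) := by
    have : Continuous (fderiv ℝ h) := hh.continuous_fderiv (by simp)
    exact this.clm_apply continuous_const
  have hK : IsCompact (Icc (-1 : ℝ) 1 ×ˢ uIcc a b) := isCompact_Icc.prod isCompact_uIcc
  obtain ⟨C, hC⟩ := hK.exists_bound_of_continuousOn hcont'.continuousOn
  have hc : Continuous h := hh.continuous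
  have key := intervalIntegral.hasDerivAt_integral_of_dominated_loc_of_deriv_le (μ := volume)
    (F := fun s t => h (s, t)) (F' := h') (x₀ := (0 : ℝ)) (s := Icc (-1 : ℝ) 1) (a := a) (b := b)
    (bound := fun _ => C)
    (Icc_mem_nhds (by norm_num) (by norm_num))
    (Eventually.of_forall fun s => (hc.comp (by fun_prop)).aestronglyMeasurable)
    ((hc.comp (by fun_prop)).intervalIntegrable a b)
    ((hcont'.comp (by fun_prop : Continuous fun t : ℝ => ((0 : ℝ), t))).aestronglyMeasurable)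
    (Eventually.of_forall fun t ht s hs => hC (s, t) ⟨hs, uIoc_subset_uIcc ht⟩)
    intervalIntegrable_const
    (Eventually.of_forall fun t _ s _ => hder s t)
  have h3 : ∀ t, h' 0 t = 0 := fun t => (hder 0 t).unique (h0 t)
  have h4 : (∫ t in a..b, h' 0 t) = 0 := by
    simp [h3]
  have h5 := key.2
  rw [h4] at h5
  exact h5

variable [IsManifold 𝓘(ℝ, E) ∞ M]

/-- a smooth map to the model space which is a translated chart near `x0` -/
theorem exists_global_chart [FiniteDimensional ℝ E] [T2Space M] (x0 : M) :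
    ∃ Y : M → E, ContMDiff 𝓘(ℝ, E) 𝓘(ℝ, E) ∞ Y ∧ Y x0 = 0 ∧
      ∃ U : Set M, IsOpen U ∧ x0 ∈ U ∧ U ⊆ (chartAt E x0).source ∧
        ∀ x ∈ U, Y x = extChartAt 𝓘(ℝ, E) x0 x - extChartAt 𝓘(ℝ, E) x0 x0 := by
  obtain ⟨f⟩ : Nonempty (SmoothBumpFunction 𝓘(ℝ, E) x0) := inferInstance
  have hg : ContMDiffOn 𝓘(ℝ, E) 𝓘(ℝ, E) ∞
      (fun x => extChartAt 𝓘(ℝ, E) x0 x - extChartAt 𝓘(ℝ, E) x0 x0) (chartAt E x0).source :=
    contMDiffOn_extChartAt.sub contMDiffOn_const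
  refine ⟨fun x => f x • (extChartAt 𝓘(ℝ, E) x0 x - extChartAt 𝓘(ℝ, E) x0 x0),
    f.contMDiff_smul hg, by simp, ?_⟩
  have h1 : ∀ᶠ x in 𝓝 x0, f x = 1 := f.eventuallyEq_one
  have h2 : ∀ᶠ x in 𝓝 x0, x ∈ (chartAt E x0).source := chart_source_mem_nhds E x0
  obtain ⟨U, hU, hUo, hx0⟩ := eventually_nhds_iff.1 (h1.and h2)
  refine ⟨U, hUo, hx0, fun x hx => (hU x hx).2, fun x hx => ?_⟩
  simp only
  rw [(hU x hx).1, one_smul]

/-- A critical point of `x ↦ L(x, c ξ(x))` gives an extremal `t ↦ Φ_{ct}(x0)`. -/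
theorem extremal_of_critical [FiniteDimensional ℝ E] [T2Space M] {Φ : ℝ → M → M}
    (h : IsCircleAction (E := E) Φ)
    {L : TangentBundle 𝓘(ℝ, E) M → ℝ} (hL : ContMDiff 𝓘(ℝ, E).tangent 𝓘(ℝ, ℝ) ∞ L)
    (hinv : IsInvariant L Φ) (x0 : M) (c : ℝ)
    (hcrit : ∀ x : ℝ → M, ContMDiff 𝓘(ℝ, ℝ) 𝓘(ℝ, E) ∞ x → x 0 = x0 →
      HasDerivAt (fun s => L ⟨x s, c • gen (E := E) Φ (x s)⟩) 0 0) :
    IsExtremal L (fun t => Φ (c * t) x0) := by
  intro a b Γ hab hΓ h0 hout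
  set β : ℝ × ℝ → M := fun p => Φ (-(c * p.2)) (Γ p) with hβdef
  have hβ : ContMDiff 𝓘(ℝ, ℝ × ℝ) 𝓘(ℝ, E) ∞ β := by
    have h1 : ContMDiff 𝓘(ℝ, ℝ × ℝ) 𝓘(ℝ, ℝ) ∞ (fun p : ℝ × ℝ => -(c * p.2)) := by
      apply ContDiff.contMDiff
      fun_prop
    exact h.smooth.comp (h1.prodMk hΓ)
  have hΓβ : ∀ p : ℝ × ℝ, Γ p = Φ (c * p.2) (β p) := by
    intro p
    simp only [hβdef]
    rw [← h.add, add_neg_cancel, h.zero]
  have hβ0 : ∀ t, β (0, t) = x0 := by
    intro t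
    simp only [hβdef]
    rw [h0, ← h.add, neg_add_cancel, h.zero]
  have hβout : ∀ s t, t ∉ Ioo a b → β (s, t) = x0 := by
    intro s t ht
    simp only [hβdef]
    rw [hout s t ht, ← h.add, neg_add_cancel, h.zero]
  have hβt : ∀ s t, MDifferentiableAt 𝓘(ℝ, ℝ) 𝓘(ℝ, E) (fun t' => β (s, t')) t := by
    intro s t
    have h1 : ContMDiff 𝓘(ℝ, ℝ) 𝓘(ℝ, ℝ × ℝ) ∞ (fun t' : ℝ => (s, t')) := by
      apply ContDiff.contMDiff
      fun_prop
    exact (hβ.comp h1).mdifferentiableAt (by simp)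
  set bb : ℝ → ℝ → E := fun s t => dv (E := E) (fun t' => β (s, t')) t with hbb
  have hvel : ∀ s t, L (vel (fun t' => Γ (s, t')) t) =
      L ⟨β (s, t), c • gen (E := E) Φ (β (s, t)) + bb s t⟩ := by
    intro s t
    have h1 : (fun t' => Γ (s, t')) = fun t' => Φ (c * t') ((fun t'' => β (s, t'')) t') := by
      funext t'
      exact hΓβ (s, t')
    rw [h1, h.vel_flow c (hβt s t), hinv]
  obtain ⟨Y, hY, hY0, U, hU, hx0U, hUs, hYU⟩ := exists_global_chart (E := E) x0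
  set G : ℝ × ℝ → E := fun p => Y (β p) with hG
  have hGs : ContDiff ℝ ∞ G := (hY.comp hβ).contDiff
  set W : ℝ × ℝ → E := fun p => fderiv ℝ G p ((0 : ℝ), (1 : ℝ)) with hW
  have hWs : ContDiff ℝ ∞ W := by
    have : ContDiff ℝ ∞ (fderiv ℝ G) := hGs.fderiv_right (by simp)
    exact this.clm_apply contDiff_const
  have hGt : ∀ s t, HasDerivAt (fun t' => G (s, t')) (W (s, t)) t := by
    intro s t
    have h1 : HasFDerivAt G (fderiv ℝ G (s, t)) (s, t) :=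
      (hGs.differentiable (by simp) (s, t)).hasFDerivAt
    have h2 : HasDerivAt (fun t' : ℝ => (s, t')) ((0 : ℝ), (1 : ℝ)) t :=
      (hasDerivAt_const t s).prodMk (hasDerivAt_id t)
    exact h1.comp_hasDerivAt t h2
  set p := fib L (⟨x0, c • gen (E := E) Φ x0⟩ : TangentBundle 𝓘(ℝ, E) M) with hp
  set f : ℝ × ℝ → ℝ := fun q => L (vel (fun t' => Γ (q.1, t')) q.2) with hf
  have hfs : ContDiff ℝ ∞ f := (hL.comp (smooth_vel hΓ)).contDiff
  set hh : ℝ × ℝ → ℝ := fun q => f q - p (W q) with hhh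
  have hhs : ContDiff ℝ ∞ hh := hfs.sub (p.contDiff.comp hWs)
  have hzero : ∀ t, HasDerivAt (fun s => hh (s, t)) 0 0 := by
    intro t
    have hls : ContMDiff 𝓘(ℝ, ℝ) 𝓘(ℝ, ℝ × ℝ) ∞ (fun s : ℝ => (s, t)) := by
      apply ContDiff.contMDiff
      fun_prop
    have hxs : ContMDiff 𝓘(ℝ, ℝ) 𝓘(ℝ, E) ∞ (fun s => β (s, t)) := hβ.comp hls
    have hWd : DifferentiableAt ℝ (fun s => W (s, t)) 0 := by
      have h1 : ContDiff ℝ ∞ (fun s : ℝ => W (s, t)) := hWs.comp (by fun_prop)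
      exact h1.differentiable (by simp) 0
    set w := deriv (fun s => W (s, t)) 0 with hw
    have hWd' : HasDerivAt (fun s => W (s, t)) w 0 := hWd.hasDerivAt
    have hcoo : (fun s => coo (E := E) x0 ⟨β (s, t), bb s t⟩) =ᶠ[𝓝 0] fun s => W (s, t) := by
      have hV : IsOpen (β ⁻¹' U) := hU.preimage hβ.continuous
      have hV0 : ((0 : ℝ), t) ∈ β ⁻¹' U := by
        rw [mem_preimage, hβ0]
        exact hx0U
      have h1 : ∀ᶠ s in 𝓝 (0 : ℝ), (s, t) ∈ β ⁻¹' U := by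
        have hc : Continuous (fun s : ℝ => (s, t)) := by fun_prop
        exact hc.continuousAt (hV.mem_nhds hV0)
      filter_upwards [h1] with s hs
      have h2 := coo_vel (E := E) (x0 := x0) (hUs hs) (hβt s t)
      rw [vel_eq] at h2
      have h3 : ∀ᶠ t' in 𝓝 t, (s, t') ∈ β ⁻¹' U := by
        have hc : Continuous (fun t' : ℝ => (s, t')) := by fun_prop
        exact hc.continuousAt (hV.mem_nhds hs)
      have h4 : (fun t' => G (s, t')) =ᶠ[𝓝 t]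
          fun t' => extChartAt 𝓘(ℝ, E) x0 (β (s, t')) - extChartAt 𝓘(ℝ, E) x0 x0 := by
        filter_upwards [h3] with t' ht'
        exact hYU _ ht'
      have h5 := ((hGt s t).congr_of_eventuallyEq h4.symm).add_const (extChartAt 𝓘(ℝ, E) x0 x0)
      have h6 : HasDerivAt (fun t' => extChartAt 𝓘(ℝ, E) x0 (β (s, t'))) (W (s, t)) t := by
        simpa using h5
      rw [h6.deriv] at h2
      exact h2
    have hB : HasDerivAt (fun s => coo (E := E) x0 ⟨β (s, t), bb s t⟩) w 0 :=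
      hWd'.congr_of_eventuallyEq hcoo
    have hb0 : bb 0 t = 0 := by
      simp only [hbb, dv]
      have h1 : (fun t' => β (0, t')) = fun _ : ℝ => x0 := funext hβ0
      rw [h1, mfderiv_const]
      rfl
    have hP : MDifferentiableAt 𝓘(ℝ, ℝ) 𝓘(ℝ, E).tangent
        (fun s => (⟨β (s, t), c • gen (E := E) Φ (β (s, t))⟩ : TangentBundle 𝓘(ℝ, E) M)) 0 := by
      have h1 : ContMDiff 𝓘(ℝ, ℝ) 𝓘(ℝ, E).tangent ∞
          (fun s => (⟨β (s, t), c • gen (E := E) Φ (β (s, t))⟩ : TangentBundle 𝓘(ℝ, E) M)) :=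
        h.smooth_gen.comp (contMDiff_const.prodMk hxs)
      exact h1.mdifferentiableAt (by simp)
    have h1 := pointwise hL x0 (c • gen (E := E) Φ x0) (fun s => β (s, t))
      (fun s => c • gen (E := E) Φ (β (s, t))) (fun s => bb s t) w (hβ0 t)
      (by simp only [hβ0 t]) hb0 hxs.continuous.continuousAt hP hB (hcrit _ hxs (hβ0 t))
    have h2 : HasDerivAt (fun s => p (W (s, t))) (p w) 0 := p.hasFDerivAt.comp_hasDerivAt 0 hWd'
    have h3 := h1.sub h2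
    rw [← hp, sub_self] at h3
    refine h3.congr_of_eventuallyEq (Eventually.of_forall fun s => ?_)
    simp only [hhh, hf]
    rw [hvel]
    rfl
  have hint := hasDerivAt_integral_zero hhs a b hzero
  have hWint : ∀ s, ∫ t in a..b, p (W (s, t)) = 0 := by
    intro s
    have h1 : ∀ t ∈ uIcc a b, HasDerivAt (fun t' => p (G (s, t'))) (p (W (s, t))) t := by
      intro t _
      exact p.hasFDerivAt.comp_hasDerivAt t (hGt s t)
    have h2 : Continuous fun t => p (W (s, t)) :=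
      p.continuous.comp (hWs.continuous.comp (by fun_prop))
    rw [intervalIntegral.integral_eq_sub_of_hasDerivAt h1 (h2.intervalIntegrable a b)]
    have h3 : G (s, b) = 0 := by
      simp only [hG]
      rw [hβout s b (by simp), hY0]
    have h4 : G (s, a) = 0 := by
      simp only [hG]
      rw [hβout s a (by simp), hY0]
    rw [h3, h4, sub_self]
  have hsplit : ∀ s, ∫ t in a..b, L (vel (fun t' => Γ (s, t')) t) = ∫ t in a..b, hh (s, t) := by
    intro s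
    have h1 : Continuous fun t => f (s, t) := hfs.continuous.comp (by fun_prop)
    have h2 : Continuous fun t => p (W (s, t)) :=
      p.continuous.comp (hWs.continuous.comp (by fun_prop))
    have h3 : ∫ t in a..b, hh (s, t) = (∫ t in a..b, f (s, t)) - ∫ t in a..b, p (W (s, t)) := by
      simp only [hhh]
      exact intervalIntegral.integral_sub (h1.intervalIntegrable a b) (h2.intervalIntegrable a b)
    rw [h3, hWint s, sub_zero]
  have hfun : (fun s : ℝ => ∫ t in a..b, L (vel (fun t' => Γ (s, t')) t)) =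
      fun s => ∫ t in a..b, hh (s, t) := funext hsplit
  rw [hfun]
  exact hint

end

end Pool.Agent.TSYM46
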