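import Pool.Agent.Lib.TSYM46.Defs

open Set Filter Topology Manifold ContDiff Bundle

namespace Pool.Agent.TSYM46

noncomputable section

variable {E : Type*} [NormedAddCommGroup E] [NormedSpace ℝ E]
  {M : Type*} [TopologicalSpace M] [ChartedSpace E M] [IsManifold 𝓘(ℝ, E) ∞ M]

/-- The generator of the flow. -/
def gen (Φ : ℝ → M → M) (x : M) : E :=
  (mfderiv 𝓘(ℝ, ℝ) 𝓘(ℝ, E) (fun t => Φ t x) 0 (1 : ℝ) : TangentSpace 𝓘(ℝ, E) (Φ 0 x))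

omit [IsManifold 𝓘(ℝ, E) ∞ M] in
/-- the second component of the velocity -/
def dv (β : ℝ → M) (t : ℝ) : E :=
  (mfderiv 𝓘(ℝ, ℝ) 𝓘(ℝ, E) β t (1 : ℝ) : TangentSpace 𝓘(ℝ, E) (β t))

omit [IsManifold 𝓘(ℝ, E) ∞ M] in
theorem vel_eq (β : ℝ → M) (t : ℝ) : vel (E := E) β t = ⟨β t, dv (E := E) β t⟩ := rfl

variable {Φ : ℝ → M → M}

theorem IsCircleAction.smooth_time (h : IsCircleAction (E := E) Φ) (x : M) :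
    ContMDiff 𝓘(ℝ, ℝ) 𝓘(ℝ, E) ∞ (fun t => Φ t x) :=
  h.smooth.comp (contMDiff_id.prodMk contMDiff_const)

theorem IsCircleAction.smooth_space (h : IsCircleAction (E := E) Φ) (t : ℝ) :
    ContMDiff 𝓘(ℝ, E) 𝓘(ℝ, E) ∞ (Φ t) :=
  h.smooth.comp (contMDiff_const.prodMk contMDiff_id)

/-- derivative in time of the flow, in terms of the generator -/
theorem IsCircleAction.deriv_time (h : IsCircleAction (E := E) Φ) (x : M) (τ c : ℝ) :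
    (mfderiv 𝓘(ℝ, ℝ) 𝓘(ℝ, E) (fun t => Φ t x) τ c : E) =
      (mfderiv 𝓘(ℝ, E) 𝓘(ℝ, E) (Φ τ) x (c • gen (E := E) Φ x) : E) := by
  have h1 : (fun t => Φ (t + τ) x) = Φ τ ∘ (fun t => Φ t x) := by
    funext t
    simp only [Function.comp]
    rw [← h.add]
    congr 1
    ring
  have hx : Φ 0 x = x := h.zero x
  have hd1 : MDifferentiableAt 𝓘(ℝ, ℝ) 𝓘(ℝ, E) (fun t => Φ t x) (0 + τ) :=
    (h.smooth_time x).mdifferentiableAt (by simp)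
  have hd1' : MDifferentiableAt 𝓘(ℝ, ℝ) 𝓘(ℝ, E) (fun t => Φ t x) 0 :=
    (h.smooth_time x).mdifferentiableAt (by simp)
  have hd2 : HasMFDerivAt 𝓘(ℝ, ℝ) 𝓘(ℝ, ℝ) (fun t : ℝ => t + τ) 0
      (ContinuousLinearMap.id ℝ ℝ) := by
    apply HasFDerivAt.hasMFDerivAt
    exact (hasFDerivAt_id (0 : ℝ)).add_const τ
  have hd4 : MDifferentiableAt 𝓘(ℝ, E) 𝓘(ℝ, E) (Φ τ) (Φ 0 x) :=
    (h.smooth_space τ).mdifferentiableAt (by simp)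
  have e1 : HasMFDerivAt 𝓘(ℝ, ℝ) 𝓘(ℝ, E) (fun t => Φ (t + τ) x) 0
      ((mfderiv 𝓘(ℝ, E) 𝓘(ℝ, E) (Φ τ) (Φ 0 x)).comp
        (mfderiv 𝓘(ℝ, ℝ) 𝓘(ℝ, E) (fun t => Φ t x) 0)) := by
    rw [h1]
    exact HasMFDerivAt.comp (0 : ℝ) hd4.hasMFDerivAt hd1'.hasMFDerivAt
  have e2 : HasMFDerivAt 𝓘(ℝ, ℝ) 𝓘(ℝ, E) (fun t => Φ (t + τ) x) 0
      ((mfderiv 𝓘(ℝ, ℝ) 𝓘(ℝ, E) (fun t => Φ t x) (0 + τ)).comp
        (ContinuousLinearMap.id ℝ ℝ)) :=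
    HasMFDerivAt.comp (g := fun t => Φ t x) (f := fun t : ℝ => t + τ) (0 : ℝ)
      hd1.hasMFDerivAt hd2
  have e3 := hasMFDerivAt_unique e1 e2
  have e4 : (mfderiv 𝓘(ℝ, E) 𝓘(ℝ, E) (Φ τ) (Φ 0 x)
      (mfderiv 𝓘(ℝ, ℝ) 𝓘(ℝ, E) (fun t => Φ t x) 0 c) : E) =
      mfderiv 𝓘(ℝ, ℝ) 𝓘(ℝ, E) (fun t => Φ t x) (0 + τ) c := congrArg (fun f => f c) e3
  rw [zero_add, hx] at e4
  rw [← e4]
  congr 1
  have e5 : c = c • (1 : ℝ) := by simp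
  conv_lhs => rw [e5]
  exact map_smul _ _ _

/-- velocity of `t ↦ Φ_{ct}(β t)` -/
theorem IsCircleAction.vel_flow (h : IsCircleAction (E := E) Φ) (c : ℝ) {β : ℝ → M} {t : ℝ}
    (hβ : MDifferentiableAt 𝓘(ℝ, ℝ) 𝓘(ℝ, E) β t) :
    vel (E := E) (fun t' => Φ (c * t') (β t')) t =
      tangentMap 𝓘(ℝ, E) 𝓘(ℝ, E) (Φ (c * t))
        ⟨β t, c • gen (E := E) Φ (β t) + dv (E := E) β t⟩ := by
  set F : ℝ × M → M := fun p => Φ p.1 p.2 with hF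
  have hFd : MDifferentiableAt (𝓘(ℝ, ℝ).prod 𝓘(ℝ, E)) 𝓘(ℝ, E) F (c * t, β t) :=
    h.smooth.mdifferentiableAt (by simp)
  have hd2 : HasMFDerivAt 𝓘(ℝ, ℝ) 𝓘(ℝ, ℝ) (fun t : ℝ => c * t) t
      (c • ContinuousLinearMap.id ℝ ℝ) := by
    apply HasFDerivAt.hasMFDerivAt
    exact (hasFDerivAt_id (t : ℝ)).const_mul c
  have hd3 : HasMFDerivAt 𝓘(ℝ, ℝ) (𝓘(ℝ, ℝ).prod 𝓘(ℝ, E)) (fun t' : ℝ => (c * t', β t')) t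
      ((c • ContinuousLinearMap.id ℝ ℝ).prod (mfderiv 𝓘(ℝ, ℝ) 𝓘(ℝ, E) β t)) :=
    hd2.prodMk hβ.hasMFDerivAt
  have hd4 := HasMFDerivAt.comp t hFd.hasMFDerivAt hd3
  have e1 : mfderiv 𝓘(ℝ, ℝ) 𝓘(ℝ, E) (fun t' => Φ (c * t') (β t')) t =
      (mfderiv (𝓘(ℝ, ℝ).prod 𝓘(ℝ, E)) 𝓘(ℝ, E) F (c * t, β t)).comp
      ((c • ContinuousLinearMap.id ℝ ℝ).prod (mfderiv 𝓘(ℝ, ℝ) 𝓘(ℝ, E) β t)) := hd4.mfderiv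
  have e2 := mfderiv_prod_eq_add_apply (I := 𝓘(ℝ, ℝ)) (I' := 𝓘(ℝ, E)) (I'' := 𝓘(ℝ, E))
    (f := F) (p := (c * t, β t))
    (v := (((c : ℝ), (mfderiv 𝓘(ℝ, ℝ) 𝓘(ℝ, E) β t (1 : ℝ) : E)) : ℝ × E)) hFd
  have e3 := h.deriv_time (β t) (c * t) c
  unfold vel tangentMap
  congr 1
  rw [e1]
  have e4 : ((mfderiv (𝓘(ℝ, ℝ).prod 𝓘(ℝ, E)) 𝓘(ℝ, E) F (c * t, β t)).comp
      ((c • ContinuousLinearMap.id ℝ ℝ).prod (mfderiv 𝓘(ℝ, ℝ) 𝓘(ℝ, E) β t)) (1 : ℝ) : E) =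
      (mfderiv (𝓘(ℝ, ℝ).prod 𝓘(ℝ, E)) 𝓘(ℝ, E) F (c * t, β t)
        ((c : ℝ), mfderiv 𝓘(ℝ, ℝ) 𝓘(ℝ, E) β t (1 : ℝ)) : E) := by
    change (mfderiv (𝓘(ℝ, ℝ).prod 𝓘(ℝ, E)) 𝓘(ℝ, E) F (c * t, β t)
      ((c • (1 : ℝ)), mfderiv 𝓘(ℝ, ℝ) 𝓘(ℝ, E) β t (1 : ℝ)) : E) = _
    simp
  refine e4.trans (e2.trans ?_)
  have e5 := ContinuousLinearMap.map_add (mfderiv 𝓘(ℝ, E) 𝓘(ℝ, E) (Φ (c * t)) (β t))
    (c • gen (E := E) Φ (β t)) (dv (E := E) β t)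
  refine Eq.trans ?_ e5.symm
  congr 1

omit [IsManifold 𝓘(ℝ, E) ∞ M] in
theorem mk_eq {x y : M} {v w : E} (h1 : x = y) (h2 : v = w) :
    (⟨x, v⟩ : TangentBundle 𝓘(ℝ, E) M) = ⟨y, w⟩ := by
  subst h1
  subst h2
  rfl

/-- the rescaled generator is smooth, jointly in the factor and the point -/
theorem IsCircleAction.smooth_gen (h : IsCircleAction (E := E) Φ) :
    ContMDiff (𝓘(ℝ, ℝ).prod 𝓘(ℝ, E)) 𝓘(ℝ, E).tangent ∞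
      (fun p : ℝ × M => (⟨p.2, p.1 • gen (E := E) Φ p.2⟩ : TangentBundle 𝓘(ℝ, E) M)) := by
  set F : ℝ × M → M := fun p => Φ p.1 p.2 with hF
  have h1 : ContMDiff (𝓘(ℝ, ℝ).prod 𝓘(ℝ, E)).tangent 𝓘(ℝ, E).tangent ∞
      (tangentMap (𝓘(ℝ, ℝ).prod 𝓘(ℝ, E)) 𝓘(ℝ, E) F) :=
    h.smooth.contMDiff_tangentMap (by simp)
  have h2 : ContMDiff (𝓘(ℝ, ℝ).tangent.prod 𝓘(ℝ, E).tangent)
      (𝓘(ℝ, ℝ).prod 𝓘(ℝ, E)).tangent ∞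
      (equivTangentBundleProd 𝓘(ℝ, ℝ) ℝ 𝓘(ℝ, E) M).symm :=
    contMDiff_equivTangentBundleProd_symm
  have h3 : ContMDiff (𝓘(ℝ, ℝ).prod 𝓘(ℝ, E)) 𝓘(ℝ, ℝ).tangent ∞
      (fun p : ℝ × M => (⟨0, p.1⟩ : TangentBundle 𝓘(ℝ, ℝ) ℝ)) := by
    intro p
    apply Bundle.contMDiffAt_totalSpace.2
    refine ⟨contMDiffAt_const, ?_⟩
    have a1 : ContMDiffAt (𝓘(ℝ, ℝ).prod 𝓘(ℝ, E)) 𝓘(ℝ, ℝ) ∞ (fun p : ℝ × M => p.1) p :=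
      contMDiffAt_fst
    refine a1.congr_of_eventuallyEq (Eventually.of_forall fun q => ?_)
    simp
  have h4 : ContMDiff (𝓘(ℝ, ℝ).prod 𝓘(ℝ, E)) 𝓘(ℝ, E).tangent ∞
      (fun p : ℝ × M => (⟨p.2, 0⟩ : TangentBundle 𝓘(ℝ, E) M)) :=
    (Bundle.contMDiff_zeroSection ℝ (TangentSpace 𝓘(ℝ, E) : M → Type _)).comp contMDiff_snd
  have h5 := h1.comp (h2.comp (h3.prodMk h4))
  refine h5.congr ?_
  intro p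
  obtain ⟨c, x⟩ := p
  have hFd : MDifferentiableAt (𝓘(ℝ, ℝ).prod 𝓘(ℝ, E)) 𝓘(ℝ, E) F (0, x) :=
    h.smooth.mdifferentiableAt (by simp)
  have e2 := mfderiv_prod_eq_add_apply (I := 𝓘(ℝ, ℝ)) (I' := 𝓘(ℝ, E)) (I'' := 𝓘(ℝ, E))
    (f := F) (p := (0, x)) (v := (((c : ℝ), (0 : E)) : ℝ × E)) hFd
  change (⟨x, c • gen (E := E) Φ x⟩ : TangentBundle 𝓘(ℝ, E) M) =
    ⟨Φ 0 x, mfderiv (𝓘(ℝ, ℝ).prod 𝓘(ℝ, E)) 𝓘(ℝ, E) F (0, x) (((c : ℝ), (0 : E)) : ℝ × E)⟩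
  have e3 : (mfderiv (𝓘(ℝ, ℝ).prod 𝓘(ℝ, E)) 𝓘(ℝ, E) F (0, x) (((c : ℝ), (0 : E)) : ℝ × E) : E) =
      c • gen (E := E) Φ x := by
    refine e2.trans ?_
    have e4 := ContinuousLinearMap.map_zero (mfderiv 𝓘(ℝ, E) 𝓘(ℝ, E) (fun z : M => F (0, z)) x)
    have e5 : (mfderiv 𝓘(ℝ, ℝ) 𝓘(ℝ, E) (fun z : ℝ => F (z, x)) 0 c : E) =
        c • gen (E := E) Φ x := by
      have e6 : c = c • (1 : ℝ) := by simp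
      conv_lhs => rw [e6]
      exact map_smul _ _ _
    rw [← e5]
    refine Eq.trans ?_ (add_zero _)
    congr 1
  exact (mk_eq (E := E) (h.zero x) e3).symm

end

end Pool.Agent.TSYM46
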