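import Pool.Agent.Lib.TSYM46.Extremal
import Pool.Agent.Lib.TSYM46.Convex

open Set Filter Topology Manifold ContDiff Bundle MeasureTheory

namespace Pool.Agent.TSYM46

noncomputable section

variable {E : Type*} [NormedAddCommGroup E] [NormedSpace ℝ E]
  {M : Type*} [TopologicalSpace M] [ChartedSpace E M] [IsManifold 𝓘(ℝ, E) ∞ M]

/-- the Lagrangian on the multiples of the generator -/
def ell (L : TangentBundle 𝓘(ℝ, E) M → ℝ) (Φ : ℝ → M → M) (x : M) (c : ℝ) : ℝ :=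
  L ⟨x, c • gen (E := E) Φ x⟩

variable {Φ : ℝ → M → M} {L : TangentBundle 𝓘(ℝ, E) M → ℝ}

theorem ell_smooth (h : IsCircleAction (E := E) Φ) (hL : ContMDiff 𝓘(ℝ, E).tangent 𝓘(ℝ, ℝ) ∞ L) :
    ContMDiff (𝓘(ℝ, ℝ).prod 𝓘(ℝ, E)) 𝓘(ℝ, ℝ) ∞ (fun p : ℝ × M => ell L Φ p.2 p.1) :=
  hL.comp h.smooth_gen

theorem ell_cont (h : IsCircleAction (E := E) Φ) (hL : ContMDiff 𝓘(ℝ, E).tangent 𝓘(ℝ, ℝ) ∞ L)
    (c : ℝ) : Continuous (fun x => ell L Φ x c) :=
  (ell_smooth h hL).continuous.comp (by fun_prop : Continuous fun x : M => (c, x))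

/-- smoothness of a Lagrangian along a ray in a fibre -/
theorem ray_smooth (hL : ContMDiff 𝓘(ℝ, E).tangent 𝓘(ℝ, ℝ) ∞ L) (x : M) (v w : E) :
    ContDiff ℝ ∞ (fun r : ℝ => L ⟨x, v + r • w⟩) := by
  have h1 : ContMDiff 𝓘(ℝ, ℝ) 𝓘(ℝ, E).tangent ∞
      (fun r : ℝ => (⟨x, v + r • w⟩ : TangentBundle 𝓘(ℝ, E) M)) := by
    intro r
    apply Bundle.contMDiffAt_totalSpace.2
    refine ⟨contMDiffAt_const, ?_⟩
    have h2 : ContDiff ℝ ∞ (fun r : ℝ => v + r • w) := by fun_prop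
    refine (h2.contMDiff.contMDiffAt (x := r)).congr_of_eventuallyEq
      (Eventually.of_forall fun q => ?_)
    exact tangentCoordChange_self (I := 𝓘(ℝ, E)) (x := x) (z := x) (v := v + q • w)
      (mem_extChartAt_source x)
  exact (hL.comp h1).contDiff

theorem ray_smooth0 (hL : ContMDiff 𝓘(ℝ, E).tangent 𝓘(ℝ, ℝ) ∞ L) (x : M) (w : E) :
    ContDiff ℝ ∞ (fun r : ℝ => L ⟨x, r • w⟩) := by
  have h1 := ray_smooth hL x (0 : E) w
  simpa only [zero_add] using h1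

theorem ell_ray (hL : ContMDiff 𝓘(ℝ, E).tangent 𝓘(ℝ, ℝ) ∞ L) (x : M) :
    ContDiff ℝ ∞ (ell L Φ x) :=
  ray_smooth0 hL x (gen (E := E) Φ x)

/-- energy along a fibre ray in terms of the derivative of the ray function -/
theorem energy_ray (hL : ContMDiff 𝓘(ℝ, E).tangent 𝓘(ℝ, ℝ) ∞ L) (x : M) (v : E) (c : ℝ) :
    energy L ⟨x, c • v⟩ = c * deriv (fun r : ℝ => L ⟨x, r • v⟩) c - L ⟨x, c • v⟩ := by
  unfold energy
  congr 1
  have h1 : ContDiff ℝ ∞ (fun r : ℝ => L ⟨x, r • v⟩) := ray_smooth0 hL x v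
  have h3 : HasDerivAt (fun r : ℝ => L ⟨x, r • v⟩) (deriv (fun r : ℝ => L ⟨x, r • v⟩) c) (1 * c) := by
    rw [one_mul]
    exact (h1.differentiable (by simp) c).hasDerivAt
  have h4 : HasDerivAt (fun r : ℝ => r * c) c 1 := by
    simpa using (hasDerivAt_id (1 : ℝ)).mul_const c
  have h5 := h3.comp (1 : ℝ) h4
  have h6 : (fun r : ℝ => L ⟨x, r • (c • v)⟩) = (fun r : ℝ => L ⟨x, r • v⟩) ∘ fun r => r * c := by
    funext r
    simp only [Function.comp]
    rw [smul_smul]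
  change deriv (fun r : ℝ => L ⟨x, r • (c • v)⟩) 1 = _
  rw [h6, h5.deriv, mul_comm]

theorem ray_second (hL : IsTonelli L) (x : M) (v : E) (hv : v ≠ 0) (c : ℝ) :
    0 < deriv (deriv (fun r : ℝ => L ⟨x, r • v⟩)) c := by
  have h1 := hL.convex x (c • v) v hv
  set ρ : ℝ → ℝ := fun r : ℝ => L ⟨x, r • v⟩ with hρ
  have h2 : (fun r : ℝ => L ⟨x, c • v + r • v⟩) = fun r => ρ (c + r) := by
    funext r
    simp only [hρ]
    rw [← add_smul]
  have h3 : deriv (fun r : ℝ => L ⟨x, c • v + r • v⟩) = fun r => deriv ρ (c + r) := by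
    rw [h2]
    funext r
    exact deriv_comp_const_add ρ c r
  have h4 : deriv (deriv (fun r : ℝ => L ⟨x, c • v + r • v⟩)) 0 = deriv (deriv ρ) c := by
    rw [h3]
    have h5 := deriv_comp_const_add (deriv ρ) c 0
    rw [add_zero] at h5
    exact h5
  rw [← h4]
  exact h1

theorem ray_convex (hL : IsTonelli L) (x : M) (v : E) :
    ConvexOn ℝ univ (fun r : ℝ => L ⟨x, r • v⟩) := by
  have h1 : ContDiff ℝ ∞ (fun r : ℝ => L ⟨x, r • v⟩) := ray_smooth0 hL.smooth x v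
  by_cases hv : v = 0
  · subst hv
    have : (fun r : ℝ => L ⟨x, r • (0 : E)⟩) = fun _ => L ⟨x, (0 : E)⟩ := by
      funext r
      rw [smul_zero]
    rw [this]
    exact convexOn_const _ convex_univ
  · apply convexOn_univ_of_deriv2_nonneg (h1.differentiable (by simp))
    · have h2 : ContDiff ℝ ∞ (deriv (fun r : ℝ => L ⟨x, r • v⟩)) := by
        have h3 : ContDiff ℝ (∞ + 1) (fun r : ℝ => L ⟨x, r • v⟩) := h1
        exact (contDiff_succ_iff_deriv.1 h3).2.2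
      exact h2.differentiable (by simp)
    · intro c
      exact (ray_second hL x v hv c).le

omit [IsManifold 𝓘(ℝ, E) ∞ M] in
theorem energy_inv (hinv : IsInvariant L Φ) (t : ℝ) (p : TangentBundle 𝓘(ℝ, E) M) :
    energy L (tangentMap 𝓘(ℝ, E) 𝓘(ℝ, E) (Φ t) p) = energy L p := by
  unfold energy
  rw [hinv]
  congr 2
  funext r
  have h1 := hinv t ⟨p.1, r • p.2⟩
  rw [← h1]
  unfold tangentMap
  congr 2
  exact (map_smul (mfderiv 𝓘(ℝ, E) 𝓘(ℝ, E) (Φ t) p.1) r p.2).symm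

theorem energy_orbit (h : IsCircleAction (E := E) Φ) (hinv : IsInvariant L Φ) (x : M) (c t : ℝ) :
    energy L (vel (fun t => Φ (c * t) x) t) = energy L ⟨x, c • gen (E := E) Φ x⟩ := by
  have hc : MDifferentiableAt 𝓘(ℝ, ℝ) 𝓘(ℝ, E) (fun _ : ℝ => x) t := mdifferentiableAt_const
  have h1 := h.vel_flow c hc
  rw [h1, energy_inv hinv]
  have h2 : dv (E := E) (fun _ : ℝ => x) t = 0 := by
    unfold dv
    rw [mfderiv_const]
    rfl
  rw [h2, add_zero]

theorem ell_second (hL : IsTonelli L) (x : M) (hx : gen (E := E) Φ x ≠ 0) (c : ℝ) :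
    0 < deriv (deriv (ell L Φ x)) c := ray_second hL x _ hx c

theorem ell_convex (hL : IsTonelli L) (x : M) : ConvexOn ℝ univ (ell L Φ x) :=
  ray_convex hL x _

theorem ell_diff (hL : IsTonelli L) (x : M) : Differentiable ℝ (ell L Φ x) :=
  (ell_ray hL.smooth x).differentiable (by simp)

/-- smoothness of the Lagrangian on multiples of the generator along a curve -/
theorem curve_smooth (h : IsCircleAction (E := E) Φ)
    (hL : ContMDiff 𝓘(ℝ, E).tangent 𝓘(ℝ, ℝ) ∞ L) {y : ℝ → M}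
    (hy : ContMDiff 𝓘(ℝ, ℝ) 𝓘(ℝ, E) ∞ y) :
    ContDiff ℝ ∞ (fun p : ℝ × ℝ => ell L Φ (y p.1) p.2) := by
  have h1 : ContMDiff 𝓘(ℝ, ℝ × ℝ) 𝓘(ℝ, ℝ) ∞ (fun p : ℝ × ℝ => p.2) := contDiff_snd.contMDiff
  have h2 : ContMDiff 𝓘(ℝ, ℝ × ℝ) 𝓘(ℝ, ℝ) ∞ (fun p : ℝ × ℝ => p.1) := contDiff_fst.contMDiff
  exact ((ell_smooth h hL).comp (h1.prodMk (hy.comp h2))).contDiff

theorem curve_deriv (h : IsCircleAction (E := E) Φ)
    (hL : ContMDiff 𝓘(ℝ, E).tangent 𝓘(ℝ, ℝ) ∞ L) {y : ℝ → M}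
    (hy : ContMDiff 𝓘(ℝ, ℝ) 𝓘(ℝ, E) ∞ y) (c : ℝ) :
    HasDerivAt (fun s => ell L Φ (y s) c)
      (fderiv ℝ (fun p : ℝ × ℝ => ell L Φ (y p.1) p.2) (0, c) ((1 : ℝ), (0 : ℝ))) 0 := by
  have h1 := ((curve_smooth h hL hy).differentiable (by simp) (0, c)).hasFDerivAt
  have h2 : HasDerivAt (fun s : ℝ => (s, c)) ((1 : ℝ), (0 : ℝ)) 0 :=
    (hasDerivAt_id' (0 : ℝ)).prodMk (hasDerivAt_const 0 c)
  exact h1.comp_hasDerivAt (0 : ℝ) h2

theorem main_pos [FiniteDimensional ℝ E] [CompactSpace M] [T2Space M]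
    (h : IsCircleAction (E := E) Φ) (hL : IsTonelli L) (hinv : IsInvariant L Φ) {k s1 : ℝ} {x1 : M}
    (hs1 : 0 < s1) (hB : Below (ell L Φ x1) k s1) :
    ∃ (x : M) (c : ℝ), IsExtremal L (fun t => Φ (c * t) x) ∧
      ∀ t, energy L (vel (fun t => Φ (c * t) x) t) = k := by
  obtain ⟨x, s, hs, hBs, hmax⟩ := exists_best (fun c => ell_cont h hL.smooth c) hB
  have hspos : 0 < s := lt_of_lt_of_le hs1 hs
  have hx : gen (E := E) Φ x ≠ 0 := by
    intro hx0
    have h1 : ∀ c, ell L Φ x c = L ⟨x, (0 : E)⟩ := by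
      intro c
      unfold ell
      rw [hx0, smul_zero]
    set m := L ⟨x, (0 : E)⟩ + k with hm
    have h2 := hBs ((|m| + 1) / s) (by positivity)
    rw [h1, mul_div_cancel₀ _ hspos.ne'] at h2
    have h3 := le_abs_self m
    linarith
  obtain ⟨c, hc, hderiv, hE⟩ := attain (ell_convex hL x) (ell_diff hL x)
    (hL.superlinear x _ hx) hBs (fun s' hs' => hmax x s' hs')
  have hsecond := ell_second hL x hx c
  have hcrit : ∀ y : ℝ → M, ContMDiff 𝓘(ℝ, ℝ) 𝓘(ℝ, E) ∞ y → y 0 = x →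
      HasDerivAt (fun s => L ⟨y s, c • gen (E := E) Φ (y s)⟩) 0 0 := by
    intro y hy hy0
    have key : ∀ z : ℝ → M, ContMDiff 𝓘(ℝ, ℝ) 𝓘(ℝ, E) ∞ z → z 0 = x →
        fderiv ℝ (fun p : ℝ × ℝ => ell L Φ (z p.1) p.2) (0, c) ((1 : ℝ), (0 : ℝ)) ≤ 0 := by
      intro z hz hz0
      refine first_order (f := fun p : ℝ × ℝ => ell L Φ (z p.1) p.2) (k := k) (s0 := s)
        ((curve_smooth h hL.smooth hz).of_le ENat.LEInfty.out) ?_ hc ?_ ?_ ?_ ?_
      · intro r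
        exact ell_convex hL (z r)
      · simp only [hz0]
        exact hderiv
      · simp only [hz0]
        exact hE
      · intro r s' hs'
        exact hmax (z r) s' hs'
      · simp only [hz0]
        exact hsecond
    have h1 := curve_deriv h hL.smooth hy c
    have hneg : ContMDiff 𝓘(ℝ, ℝ) 𝓘(ℝ, ℝ) ∞ (fun s : ℝ => -s) := contDiff_neg.contMDiff
    have hy' : ContMDiff 𝓘(ℝ, ℝ) 𝓘(ℝ, E) ∞ (fun s => y (-s)) := hy.comp hneg
    have h2 := curve_deriv h hL.smooth hy' c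
    have h3 := key y hy hy0
    have h4 := key (fun s => y (-s)) hy' (by simp only [neg_zero]; exact hy0)
    set D := fderiv ℝ (fun p : ℝ × ℝ => ell L Φ (y p.1) p.2) (0, c) ((1 : ℝ), (0 : ℝ)) with hD
    have h5 : HasDerivAt (fun s => ell L Φ (y (-s)) c) (D * (-1)) 0 := by
      have h6 : HasDerivAt (fun s => ell L Φ (y s) c) D (-0) := by
        rw [neg_zero]
        exact h1
      exact h6.comp (0 : ℝ) (hasDerivAt_neg (0 : ℝ))
    rw [h2.unique h5] at h4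
    have h7 : D = 0 := by linarith
    rw [h7] at h1
    exact h1
  refine ⟨x, c, extremal_of_critical h hL.smooth hinv x c hcrit, fun t => ?_⟩
  rw [energy_orbit h hinv, energy_ray hL.smooth]
  change c * deriv (ell L Φ x) c - ell L Φ x c = k
  rw [hderiv]
  exact hE

/-- the reversed action -/
theorem IsCircleAction.reverse (h : IsCircleAction (E := E) Φ) :
    IsCircleAction (E := E) (fun t => Φ (-t)) where
  smooth := by
    have h1 : ContMDiff (𝓘(ℝ, ℝ).prod 𝓘(ℝ, E)) 𝓘(ℝ, ℝ) ∞ (fun p : ℝ × M => -p.1) :=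
      (contDiff_neg (𝕜 := ℝ) (F := ℝ)).contMDiff.comp contMDiff_fst
    exact h.smooth.comp (h1.prodMk contMDiff_snd)
  zero x := by rw [neg_zero, h.zero]
  add s t x := by rw [neg_add, h.add]
  one x := by
    have h1 := h.add (-1) 1 x
    rw [neg_add_cancel, h.zero, h.one] at h1
    exact h1.symm

theorem gen_reverse (h : IsCircleAction (E := E) Φ) (x : M) :
    gen (E := E) (fun t => Φ (-t)) x = -gen (E := E) Φ x := by
  have h1 : HasMFDerivAt 𝓘(ℝ, ℝ) 𝓘(ℝ, ℝ) (fun t : ℝ => -t) 0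
      (-ContinuousLinearMap.id ℝ ℝ) := by
    apply HasFDerivAt.hasMFDerivAt
    exact (hasFDerivAt_id (0 : ℝ)).neg
  have h2 : MDifferentiableAt 𝓘(ℝ, ℝ) 𝓘(ℝ, E) (fun t => Φ t x) (-0) :=
    (h.smooth_time x).mdifferentiableAt (by simp)
  have h3 := HasMFDerivAt.comp (g := fun t => Φ t x) (f := fun t : ℝ => -t) (0 : ℝ)
    h2.hasMFDerivAt h1
  have h4 : mfderiv 𝓘(ℝ, ℝ) 𝓘(ℝ, E) (fun t => Φ (-t) x) 0 =
      (mfderiv 𝓘(ℝ, ℝ) 𝓘(ℝ, E) (fun t => Φ t x) (-0)).comp (-ContinuousLinearMap.id ℝ ℝ) :=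
    h3.mfderiv
  unfold gen
  rw [h4, neg_zero]
  change (mfderiv 𝓘(ℝ, ℝ) 𝓘(ℝ, E) (fun t => Φ t x) 0 (-(1 : ℝ)) : E) = _
  exact map_neg _ _

omit [IsManifold 𝓘(ℝ, E) ∞ M] in
theorem IsInvariant.reverse (hinv : IsInvariant L Φ) : IsInvariant L (fun t => Φ (-t)) :=
  fun t p => hinv (-t) p

/-- a point with vanishing generator is fixed -/
theorem fixed_of_gen [FiniteDimensional ℝ E] [CompactSpace M] [T2Space M]
    (h : IsCircleAction (E := E) Φ) {x : M} (hx : gen (E := E) Φ x = 0) (t : ℝ) : Φ t x = x := by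
  by_contra hne
  obtain ⟨f, hf0, hf1, -⟩ := exists_contMDiffMap_zero_one_of_isClosed (n := ⊤) 𝓘(ℝ, E)
    (isClosed_singleton (x := Φ t x)) (isClosed_singleton (x := x)) (by simpa using hne)
  have h0 : f (Φ t x) = 0 := hf0 rfl
  have h1 : f x = 1 := hf1 rfl
  have hder : ∀ τ, HasDerivAt (fun τ => f (Φ τ x)) 0 τ := by
    intro τ
    have hfd : MDifferentiableAt 𝓘(ℝ, E) 𝓘(ℝ, ℝ) f (Φ τ x) :=
      f.contMDiff.mdifferentiableAt (by simp)
    have hud : MDifferentiableAt 𝓘(ℝ, ℝ) 𝓘(ℝ, E) (fun t => Φ t x) τ :=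
      (h.smooth_time x).mdifferentiableAt (by simp)
    have h2 : HasMFDerivAt 𝓘(ℝ, ℝ) 𝓘(ℝ, ℝ) (fun τ => f (Φ τ x)) τ
      ((mfderiv 𝓘(ℝ, E) 𝓘(ℝ, ℝ) f (Φ τ x)).comp
        (mfderiv 𝓘(ℝ, ℝ) 𝓘(ℝ, E) (fun t => Φ t x) τ)) :=
      HasMFDerivAt.comp (g := f) (f := fun t => Φ t x) τ hfd.hasMFDerivAt hud.hasMFDerivAt
    obtain ⟨D, hD⟩ : ∃ D : ℝ →L[ℝ] ℝ, D = (mfderiv 𝓘(ℝ, E) 𝓘(ℝ, ℝ) f (Φ τ x)).comp
        (mfderiv 𝓘(ℝ, ℝ) 𝓘(ℝ, E) (fun t => Φ t x) τ) := ⟨_, rfl⟩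
    have h3 : HasFDerivAt (fun τ => f (Φ τ x)) D τ := by
      rw [hD]
      exact h2.hasFDerivAt
    have h4 : (mfderiv 𝓘(ℝ, ℝ) 𝓘(ℝ, E) (fun t => Φ t x) τ (1 : ℝ) : E) = 0 := by
      rw [h.deriv_time x τ 1, hx, smul_zero]
      exact map_zero _
    have h5 : D 1 = 0 := by
      rw [hD]
      change mfderiv 𝓘(ℝ, E) 𝓘(ℝ, ℝ) f (Φ τ x)
        (mfderiv 𝓘(ℝ, ℝ) 𝓘(ℝ, E) (fun t => Φ t x) τ (1 : ℝ) : E) = (0 : ℝ)
      rw [h4]
      exact map_zero _
    have h6 := h3.hasDerivAt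
    rw [h5] at h6
    exact h6
  have hconst := is_const_of_deriv_eq_zero (fun τ => (hder τ).differentiableAt)
    (fun τ => (hder τ).deriv) t 0
  simp only [h.zero] at hconst
  rw [h0, h1] at hconst
  exact zero_ne_one hconst

/-- the positive direction, starting from a point below the level -/
theorem main_half [FiniteDimensional ℝ E] [CompactSpace M] [T2Space M]
    (h : IsCircleAction (E := E) Φ) (hL : IsTonelli L) (hinv : IsInvariant L Φ) {k : ℝ} {x1 : M}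
    (hx1 : gen (E := E) Φ x1 ≠ 0) (hk : -L ⟨x1, (0 : E)⟩ < k)
    (hj : 0 ≤ deriv (ell L Φ x1) 0) :
    ∃ (x : M) (c : ℝ), IsExtremal L (fun t => Φ (c * t) x) ∧
      ∀ t, energy L (vel (fun t => Φ (c * t) x) t) = k := by
  set f := ell L Φ x1 with hf
  have hfs : ContDiff ℝ ∞ f := ell_ray hL.smooth x1
  have hf' : ContDiff ℝ ∞ (deriv f) := by
    have h3 : ContDiff ℝ (∞ + 1) f := hfs
    exact (contDiff_succ_iff_deriv.1 h3).2.2
  have hmono : StrictMono (deriv f) := strictMono_of_deriv_pos fun c => ell_second hL x1 hx1 c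
  have hcont : Continuous (fun c => c * deriv f c - f c) :=
    (continuous_id.mul hf'.continuous).sub hfs.continuous
  have h0 : (fun c => c * deriv f c - f c) 0 < k := by
    have : f 0 = L ⟨x1, (0 : E)⟩ := by
      simp only [hf, ell, zero_smul]
    simp only [zero_mul, this]
    linarith
  have h1 : ∀ᶠ c in 𝓝[>] (0 : ℝ), c * deriv f c - f c < k :=
    nhdsWithin_le_nhds (hcont.continuousAt (gt_mem_nhds h0))
  obtain ⟨c, hc1, hc2⟩ := (h1.and self_mem_nhdsWithin).exists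
  have hc3 : (0 : ℝ) < c := hc2
  have h2 : 0 < deriv f c := lt_of_le_of_lt hj (hmono hc3)
  exact main_pos h hL hinv h2 (below_of_energy_le (ell_convex hL x1) (ell_diff hL x1) hc1.le)

omit [IsManifold 𝓘(ℝ, E) ∞ M] in
theorem energy_zero (x : M) : energy L ⟨x, (0 : E)⟩ = -L ⟨x, (0 : E)⟩ := by
  unfold energy
  have h1 : (fun r : ℝ => L ⟨x, r • (0 : E)⟩) = fun _ => L ⟨x, (0 : E)⟩ := by
    funext r
    rw [smul_zero]
  change deriv (fun r : ℝ => L ⟨x, r • (0 : E)⟩) 1 - _ = _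
  rw [h1, deriv_const, zero_sub]

theorem energy_ge (hL : IsTonelli L) (x : M) (v : E) : -L ⟨x, (0 : E)⟩ ≤ energy L ⟨x, v⟩ := by
  have h1 := energy_ray hL.smooth x v 1
  rw [one_smul, one_mul] at h1
  rw [h1]
  have h2 := tangent_le (ray_convex hL x v) ((ray_smooth0 hL.smooth x v).differentiable (by simp)) 1 0
  simp only [zero_smul, one_smul] at h2
  linarith

/-- Main theorem, with a density hypothesis. -/
theorem main [FiniteDimensional ℝ E] [CompactSpace M] [T2Space M]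
    (h : IsCircleAction (E := E) Φ) (hL : IsTonelli L) (hinv : IsInvariant L Φ)
    (hd : Dense {x : M | ∃ t, Φ t x ≠ x}) (k : ℝ) (hk : ∃ p, energy L p = k) :
    ∃ (x : M) (c : ℝ), IsExtremal L (fun t => Φ (c * t) x) ∧
      ∀ t, energy L (vel (fun t => Φ (c * t) x) t) = k := by
  by_cases hlow : ∃ x : M, -L ⟨x, (0 : E)⟩ < k
  · -- a point below the level which is moved
    have hopen : IsOpen {x : M | -L ⟨x, (0 : E)⟩ < k} := by
      have hc : Continuous fun x : M => -L ⟨x, (0 : E)⟩ := by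
        have h1 := (hL.smooth.comp
          (Bundle.contMDiff_zeroSection ℝ (TangentSpace 𝓘(ℝ, E) : M → Type _))).continuous
        exact h1.neg
      exact isOpen_lt hc continuous_const
    obtain ⟨x1, hx1, hmv⟩ := hd.inter_open_nonempty _ hopen hlow
    obtain ⟨t, ht⟩ := hmv
    have hg : gen (E := E) Φ x1 ≠ 0 := fun h0 => ht (fixed_of_gen h h0 t)
    rcases le_total 0 (deriv (ell L Φ x1) 0) with hj | hj
    · exact main_half h hL hinv hg hx1 hj
    · have hg' : gen (E := E) (fun t => Φ (-t)) x1 ≠ 0 := by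
        rw [gen_reverse h]
        exact neg_ne_zero.2 hg
      have hj' : 0 ≤ deriv (ell L (fun t => Φ (-t)) x1) 0 := by
        have h1 : ell L (fun t => Φ (-t)) x1 = fun c => ell L Φ x1 (-c) := by
          funext c
          unfold ell
          rw [gen_reverse h, smul_neg, neg_smul]
        rw [h1, deriv_comp_neg, neg_zero]
        linarith
      obtain ⟨x, c, h1, h2⟩ := main_half h.reverse hL hinv.reverse hg' hx1 hj'
      refine ⟨x, -c, ?_, ?_⟩
      · have h3 : (fun t => Φ (-c * t) x) = fun t => Φ (-(c * t)) x := by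
          funext t
          rw [neg_mul]
        rw [h3]
        exact h1
      · have h3 : (fun t => Φ (-c * t) x) = fun t => Φ (-(c * t)) x := by
          funext t
          rw [neg_mul]
        rw [h3]
        exact h2
  · -- the level is the minimum of the energy
    push Not at hlow
    obtain ⟨⟨x, v⟩, hp⟩ := hk
    have h1 := energy_ge hL x v
    rw [hp] at h1
    have hx : -L ⟨x, (0 : E)⟩ = k := le_antisymm h1 (hlow x)
    have hcrit : ∀ y : ℝ → M, ContMDiff 𝓘(ℝ, ℝ) 𝓘(ℝ, E) ∞ y → y 0 = x →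
        HasDerivAt (fun s => L ⟨y s, (0 : ℝ) • gen (E := E) Φ (y s)⟩) 0 0 := by
      intro y hy hy0
      have h2 := curve_deriv h hL.smooth hy 0
      have h3 : IsLocalMax (fun s => ell L Φ (y s) 0) 0 := by
        refine Eventually.of_forall fun s => ?_
        unfold ell
        simp only [zero_smul]
        rw [hy0]
        have := hlow (y s)
        linarith
      have h4 := h3.hasDerivAt_eq_zero h2
      rw [h4] at h2
      exact h2
    refine ⟨x, 0, extremal_of_critical h hL.smooth hinv x 0 hcrit, fun t => ?_⟩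
    rw [energy_orbit h hinv, zero_smul, energy_zero, hx]

end

end Pool.Agent.TSYM46
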